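import Mathlib
import Pool.Agent.Lib.Pf72953.Adapted
import Pool.Agent.Lib.Pf72953b.Defs

/-!
Fibre spaces over an isotrivial base with rigid Picard group: definitions.

`B, Y = k(M) ⊆ Z = B·Y ⊆ P ⊆ L`, `P/Z` finite, `M` a smooth complete variety over `k`, `W` a smooth complete variety over `B` with
function field `L`.
-/

set_option autoImplicit false
set_option linter.style.haveILetI false

open scoped WithZero
open Pf72953 Pf72953.Mov

namespace Pf72953.Pic

/-- `T` is a prime divisor of `M` over `B'` (`P` is the function field of `M` over `B'`, `B'` algebraic over `B`), on the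
chart `i`. -/
structure PrimeDiv (k : Type*) {Y : Type*} [Field k] [Field Y] [Algebra k Y] (M : SmoothModel k Y)
    (B Z : Type*) {P : Type*} [Field B] [Field Z] [Field P] [Algebra k P] [Algebra B P]
    [Algebra B Z] [Algebra Y Z] [Algebra Z P] [Algebra Y P] (i : M.I) (T : Valuation P ℤᵐ⁰) :
    Prop where
  div : IsDivisorial k P T
  triv : ∀ b : B, b ≠ 0 → T (algebraMap B P b) = 1
  prime : Br.PrimeAt M B Z i T

/-- `M'` is the variety `M`, with smaller charts: every chart of `M'` is the principal open subset `g ≠ 0` of a chart of `M`,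
with the same coordinates. -/
def Refines {k Y : Type*} [Field k] [Field Y] [Algebra k Y] (M' M : SmoothModel k Y) : Prop :=
  ∀ i' : M'.I, ∃ (i : M.I) (g : Y), g ≠ 0 ∧ g ∈ M.A i ∧ g⁻¹ ∈ M'.A i' ∧ M.A i ≤ M'.A i' ∧
    (∀ f ∈ M'.A i', ∃ n : ℕ, f * g ^ n ∈ M.A i) ∧ M'.x i' = M.x i

/-- The Picard group of `M` is rigid: every prime divisor `T₀` of `M` over `B'` (`P` is the function field of `M` over `B'`,
`B'` algebraic over `B`) has a multiple `N T₀`, `N ≥ 1`, which is linearly equivalent to a line bundle `A` on `M`, i.e. there is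
`h ∈ P` such that `h gen_A` has order `N` at `T₀` and order `0` at all other prime divisors.  (A line bundle need not be trivial on
the given charts of `M`, so the charts may be refined, for finitely many `T₀` at a time.)  This is the case if `q(M) = 0` or if
`B'` has a smooth complete model of irregularity zero: the Picard group of `M` over `B'` is `Pic(M) ⊕ Hom(Alb(B'), Pic⁰(M))`. -/
def RigidPic (k : Type*) {Y : Type*} [Field k] [Field Y] [Algebra k Y] (M : SmoothModel k Y)
    (B Z P : Type*) [Field B] [Field Z] [Field P] [Algebra k P] [Algebra B P] [Algebra B Z]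
    [Algebra Y Z] [Algebra Z P] [Algebra Y P] : Prop :=
  ∀ (m : ℕ) (Ts : Fin m → Valuation P ℤᵐ⁰), (∀ l, ∃ i, PrimeDiv k M B Z i (Ts l)) →
    ∃ M' : SmoothModel k Y, Refines M' M ∧
      ∀ l, ∃ (N : ℕ) (A : LineBundle M') (h : P), 1 ≤ N ∧ h ≠ 0 ∧
        ∀ (i : M'.I) (T : Valuation P ℤᵐ⁰), PrimeDiv k M' B Z i T →
          ((∀ p, T p ≤ 1 ↔ Ts l p ≤ 1) →
            ∀ t, IsUnif T t → T (h * algebraMap Y P (A.gen i)) = T t ^ N) ∧
          ((¬ ∀ p, T p ≤ 1 ↔ Ts l p ≤ 1) → T (h * algebraMap Y P (A.gen i)) = 1)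

/-- The smooth complete variety `W` over `B`, with function field `L ⊇ Y`, maps to `M` over `B`: the functions on the chart
`i` of `M` are in the local rings of all points of `W` which are mapped to this chart. -/
def Dominates {k B Y L : Type*} [Field k] [Field B] [Field Y] [Field L] [Algebra k Y]
    [Algebra B L] [Algebra Y L] (W : SmoothModel B L) (M : SmoothModel k Y) : Prop :=
  ∀ (j : W.I) (i : M.I) (w : Valuation L ℤᵐ⁰), (∀ a ∈ W.A j, w a ≤ 1) →
    (∀ f ∈ M.A i, w (algebraMap Y L f) ≤ 1) →
    ∀ f ∈ M.A i, ∃ a ∈ W.A j, ∃ b ∈ W.A j, w b = 1 ∧ algebraMap Y L f = a / b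

end Pf72953.Pic
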