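import Mathlib
import Pool.Agent.Lib.Pf72953p.LDefs
import Pool.Agent.Lib.Pf72953b.FinBad
import Pool.Agent.Lib.Pf72953c.BasesC
import Pool.Agent.Lib.Pf72953q.QStat

/-!
Fibre spaces over an isotrivial base with rigid Picard group: definitions of the proof.

`B, Y = k(M) ⊆ Z = B·Y ⊆ P ⊆ L`, `P/Z` finite, `M` a smooth complete variety over `k`, `W` a smooth complete variety over `B` with
function field `L`, `s` a transcendence basis of `L/Z`.
-/

set_option autoImplicit false
set_option linter.style.haveILetI false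

open scoped WithZero
open Pf72953 Pf72953.Mov Pf72953.Can Pf72953.Up

namespace Pf72953.Pic

/-- `f` is in the local ring of `A` at the centre of `w` -/
def InLoc {κ K : Type*} [Field κ] [Field K] [Algebra κ K] (A : Subalgebra κ K)
    (w : Valuation K ℤᵐ⁰) (f : K) : Prop :=
  ∃ a ∈ A, ∃ b ∈ A, w b = 1 ∧ f = a / b

/-- `v` is a prime divisor of the chart `j` of `W` -/
structure WPrime {B L : Type*} [Field B] [CharZero B] [Field L] [Algebra B L]
    (W : SmoothModel B L) (j : W.I) (v : Valuation L ℤᵐ⁰) : Prop where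
  div : IsDivisorial B L v
  reg : RegBasis B v (W.x j)
  le_one : ∀ a ∈ W.A j, v a ≤ 1

/-- `v` lies over `T` -/
def Over {P L : Type*} [Field P] [Field L] [Algebra P L] (T : Valuation P ℤᵐ⁰)
    (v : Valuation L ℤᵐ⁰) : Prop :=
  ∀ p : P, v (algebraMap P L p) ≤ 1 ↔ T p ≤ 1

/-- `a / N` is the smallest order of the function `φ` along the prime divisors of `W` over `T` (the order of a uniformizer
of `T` is one) -/
structure OrdAt {B P L : Type*} [Field B] [CharZero B] [Field P] [Field L] [Algebra B L]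
    [Algebra P L] (W : SmoothModel B L) (φ : W.I → L) (T : Valuation P ℤᵐ⁰) (N : ℕ) (a : ℤ) :
    Prop where
  le : ∀ (j : W.I) (v : Valuation L ℤᵐ⁰), WPrime W j v → Over T v → ∀ t : P, IsUnif T t →
    v (φ j) ^ N ≤ v (algebraMap P L t) ^ a
  eq : ∃ (j : W.I) (v : Valuation L ℤᵐ⁰), WPrime W j v ∧ Over T v ∧ ∀ t : P, IsUnif T t →
    v (φ j) ^ N = v (algebraMap P L t) ^ a

/-- the coefficient of the form `dx_{i1} ∧ ⋯ ∧ dx_{in} ∧ ds₁ ∧ ⋯ ∧ ds_r` of `L/B` in the coordinates of the chart `j` of `W` -/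
noncomputable def coefW {k B Y L : Type*} [Field k] [Field B] [CharZero B] [Field Y] [Field L]
    [Algebra k Y] [Algebra B L] [Algebra Y L] (W : SmoothModel B L) {M : SmoothModel k Y} {r : ℕ}
    (s : Fin r → L) (ev : Fin (dimension B L) ≃ Fin (dimension k Y) ⊕ Fin r) (i : M.I)
    (j : W.I) : L :=
  jac (W.tb j) (fun a => Sum.elim (fun c => algebraMap Y L (M.x i c)) s (ev a))

/-- the transcendence basis `(x_i, s)` of `L/B` -/
theorem tbL {k B Y Z L : Type*} [Field k] [Field B] [Field Y] [Field Z] [Field L] [Algebra k Y]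
    [Algebra B Z] [Algebra B L] [Algebra Y Z] [Algebra Y L] [Algebra Z L] [IsScalarTower B Z L]
    [IsScalarTower Y Z L] {M : SmoothModel k Y} {i : M.I}
    (hx : IsTranscendenceBasis B (fun a => algebraMap Y Z (M.x i a))) {r : ℕ} {s : Fin r → L}
    (hs : IsTranscendenceBasis Z s) :
    IsTranscendenceBasis B (Sum.elim (fun c => algebraMap Y L (M.x i c)) s) := by
  have h2 := hx.sumElim_comp hs
  have h3 := (isTranscendenceBasis_equiv (Equiv.sumComm (Fin (dimension k Y)) (Fin r))).mpr h2
  convert h3 using 1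
  funext j
  rcases j with j | j
  · exact IsScalarTower.algebraMap_apply Y Z L _
  · rfl

end Pf72953.Pic
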