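import Mathlib
import Pool.Agent.Lib.Pf72953b.CenterEq
import Pool.Agent.Lib.Pf72953b.CenterMin
import Pool.Agent.Lib.Pf72953q.QDefs

/-!
MODULE Pf72953q.LocHart: Hartogs' theorem for the local ring of a smooth chart at the centre of a valuation; the valuation ring of a prime divisor is a local ring.

Notation: `A_w = {a / b : a, b ∈ A, w b = 1}` (`InLoc A w`), the localisation of `A` at the prime `center A w`.
PROOF of `exists_prime_of_notMem`.  `A_w` is a `κ`-subalgebra of `K` containing `A` (sums and products: common denominators, `w (b b') = 1`), it is noetherian (a localisation of the noetherian ring `A`, `Chart.isNoetherian`,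
Pf72953u/Normal.lean: `IsLocalization.isNoetherianRing`; for the localisation as a subalgebra see the use of `Localization.subalgebra.ofField` in `exists_dvr`, Pf72953u/Dvr.lean; or directly: every ideal `I` of `A_w` is generated by `I ∩ A`), and integrally closed
(`inLoc_of_integral`: multiply an integral equation over `A_w` of degree `n` by `b ^ n`, `b` a common denominator of the coefficients, `w b = 1`: `b z` is integral over `A`, so in `A` by `Chart.mem_of_isIntegral`).  `f ∉ A_w`, so `exists_dvr` (Pf72953u/Dvr.lean) for `A_w` gives `v` with `v ≤ 1` on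
`A_w`, `1 < v f`, and every `z` with `v z ≤ 1` is `a / b`, `a, b ∈ A_w`, `v b = 1`; clearing denominators `c` (`w c = 1`, so `c, c⁻¹ ∈ A_w` and `v c = 1`) one gets `a, b ∈ A`.  So `Chart.isDivisorial` (Pf72953u/Divis.lean) applies.  If `a ∈ A`, `v a < 1` and not `w a < 1` then `w a = 1`, `a⁻¹ ∈ A_w`, `v a⁻¹ ≤ 1`, contradiction.
PROOF of `mem_loc`.  If `z` is not in `A_v`, let `v'` be given by `exists_prime_of_notMem` for `v`: `1 < v' z`, `v' a < 1 → v a < 1` for `a ∈ A`.  `v'` is not trivial, so (`h.frac`) there is `0 ≠ f ∈ A` with `v' f < 1`, so `v f < 1`.  By `center_minimal` (Pf72953b/CenterMin.lean) `center A v` is a minimal prime over `(f)`; the prime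
`center A v'` contains `f` and is contained in `center A v`; so they are equal and `center_eq` (Pf72953b/CenterEq.lean) gives `v z ≤ 1 ↔ v' z ≤ 1`, contradiction.
-/

set_option autoImplicit false
set_option linter.style.haveILetI false
set_option linter.unusedSectionVars false

open scoped WithZero
open Pf72953 Pf72953.Up

namespace Pf72953.Pic

namespace LocHartAux

section

variable {κ K : Type*} [Field κ] [Field K] [Algebra κ K] {A : Subalgebra κ K}

/-- the localisation at the centre -/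
def loc (A : Subalgebra κ K) (w : Valuation K ℤᵐ⁰) : Subalgebra κ K where
  carrier := {f | InLoc A w f}
  mul_mem' := by
    rintro f g ⟨a, ha, b, hb, hwb, rfl⟩ ⟨c, hc, d, hd, hwd, rfl⟩
    exact ⟨a * c, A.mul_mem ha hc, b * d, A.mul_mem hb hd, by rw [map_mul, hwb, hwd, one_mul],
      by rw [div_mul_div_comm]⟩
  add_mem' := by
    rintro f g ⟨a, ha, b, hb, hwb, rfl⟩ ⟨c, hc, d, hd, hwd, rfl⟩
    have hb0 : b ≠ 0 := by rintro rfl; simp at hwb
    have hd0 : d ≠ 0 := by rintro rfl; simp at hwd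
    exact ⟨a * d + b * c, A.add_mem (A.mul_mem ha hd) (A.mul_mem hb hc), b * d,
      A.mul_mem hb hd, by rw [map_mul, hwb, hwd, one_mul], by rw [div_add_div _ _ hb0 hd0]⟩
  algebraMap_mem' := by
    intro r
    exact ⟨algebraMap κ K r, A.algebraMap_mem r, 1, A.one_mem, map_one w, by rw [div_one]⟩

theorem mem_loc_iff {w : Valuation K ℤᵐ⁰} {f : K} : f ∈ loc A w ↔ InLoc A w f := Iff.rfl

theorem le_loc {w : Valuation K ℤᵐ⁰} {a : K} (ha : a ∈ A) : a ∈ loc A w :=
  ⟨a, ha, 1, A.one_mem, map_one w, by rw [div_one]⟩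

theorem inv_loc {w : Valuation K ℤᵐ⁰} {b : K} (hb : b ∈ A) (hwb : w b = 1) : b⁻¹ ∈ loc A w :=
  ⟨1, A.one_mem, b, hb, hwb, by rw [one_div]⟩

theorem noeth_loc [IsNoetherianRing A] (w : Valuation K ℤᵐ⁰) : IsNoetherianRing (loc A w) := by
  rw [isNoetherianRing_iff_ideal_fg]
  intro I
  let φ : A →+* loc A w :=
    { toFun := fun a => ⟨(a : K), le_loc a.2⟩
      map_one' := rfl
      map_mul' := fun _ _ => rfl
      map_zero' := rfl
      map_add' := fun _ _ => rfl }
  have h1 : (I.comap φ).FG := IsNoetherian.noetherian _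
  have h2 : I = (I.comap φ).map φ := by
    apply le_antisymm
    · rintro ⟨f, hf⟩ hfI
      obtain ⟨a, ha, b, hb, hwb, e⟩ := id hf
      have hb0 : b ≠ 0 := by rintro rfl; simp at hwb
      have e1 : φ ⟨a, ha⟩ = ⟨b, le_loc hb⟩ * ⟨f, hf⟩ := by
        apply Subtype.ext
        show a = b * f
        rw [e, mul_div_cancel₀ _ hb0]
      have h3 : φ ⟨a, ha⟩ ∈ I := by
        rw [e1]
        exact I.mul_mem_left _ hfI
      have e2 : (⟨f, hf⟩ : loc A w) = ⟨b⁻¹, inv_loc hb hwb⟩ * φ ⟨a, ha⟩ := by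
        apply Subtype.ext
        show f = b⁻¹ * a
        rw [e, div_eq_inv_mul]
      rw [e2]
      exact Ideal.mul_mem_left _ _ (Ideal.mem_map_of_mem φ (Ideal.mem_comap.mpr h3))
    · exact Ideal.map_comap_le
  rw [h2]
  exact Ideal.FG.map h1 φ

end

end LocHartAux

open LocHartAux

variable {κ K ι : Type*} [Field κ] [CharZero κ] [Field K] [Algebra κ K] [Fintype ι]
  [DecidableEq ι] {x : ι → K} {hx : IsTranscendenceBasis κ x} {A : Subalgebra κ K}

theorem inLoc_of_integral (h : Chart hx A) {w : Valuation K ℤᵐ⁰} (hA : ∀ a ∈ A, w a ≤ 1) {p : K}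
    (hp : ∃ g : Polynomial K, g.Monic ∧ (∀ n, InLoc A w (g.coeff n)) ∧ g.eval p = 0) :
    InLoc A w p := by
  classical
  obtain ⟨g, hg, hc, he⟩ := hp
  choose a ha b hb hwb hab using hc
  have hb0 : ∀ n, b n ≠ 0 := by
    intro n h0
    have := hwb n
    rw [h0, map_zero] at this
    exact zero_ne_one this
  set d : K := ∏ n ∈ Finset.range (g.natDegree + 1), b n with hd
  have hdA : d ∈ A := Subalgebra.prod_mem A fun n _ => hb n
  have hwd : w d = 1 := by
    rw [hd, map_prod]
    exact Finset.prod_eq_one fun n _ => hwb n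
  have hd0 : d ≠ 0 := by
    rintro h0
    rw [h0, map_zero] at hwd
    exact zero_ne_one hwd
  have hdc : ∀ n, d * g.coeff n ∈ A := by
    intro n
    by_cases hn : n < g.natDegree + 1
    · have e : d = (∏ m ∈ (Finset.range (g.natDegree + 1)).erase n, b m) * b n := by
        rw [hd, Finset.prod_erase_mul _ _ (Finset.mem_range.mpr hn)]
      rw [e, hab n, mul_assoc, mul_div_cancel₀ _ (hb0 n)]
      exact A.mul_mem (Subalgebra.prod_mem A fun n _ => hb n) (ha n)
    · rw [Polynomial.coeff_eq_zero_of_natDegree_lt (by omega), mul_zero]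
      exact A.zero_mem
  have hG : (Polynomial.scaleRoots g d).Monic := (Polynomial.monic_scaleRoots_iff d).mpr hg
  have hGc : ∀ n, (Polynomial.scaleRoots g d).coeff n ∈ A := by
    intro n
    rw [Polynomial.coeff_scaleRoots]
    rcases lt_trichotomy n g.natDegree with hn | hn | hn
    · obtain ⟨k, hk⟩ : ∃ k, g.natDegree - n = k + 1 := ⟨g.natDegree - n - 1, by omega⟩
      rw [hk, pow_succ', ← mul_assoc, mul_comm (g.coeff n) d]
      exact A.mul_mem (hdc n) (A.pow_mem hdA k)
    · rw [hn, Nat.sub_self, pow_zero, mul_one, hg.coeff_natDegree]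
      exact A.one_mem
    · rw [Polynomial.coeff_eq_zero_of_natDegree_lt hn, zero_mul]
      exact A.zero_mem
  have hGe : (Polynomial.scaleRoots g d).eval (d * p) = 0 := by
    rw [Polynomial.scaleRoots_eval_mul, he, mul_zero]
  have hlift : Polynomial.scaleRoots g d ∈ Polynomial.lifts (algebraMap A K) := by
    rw [Polynomial.lifts_iff_coeff_lifts]
    intro n
    exact ⟨⟨_, hGc n⟩, rfl⟩
  obtain ⟨q, hq1, -, hq2⟩ := Polynomial.lifts_and_natDegree_eq_and_monic hlift hG
  have hint : IsIntegral A (d * p) := by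
    refine ⟨q, hq2, ?_⟩
    rw [← Polynomial.eval_map, hq1]
    exact hGe
  refine ⟨d * p, h.mem_of_isIntegral hint, d, hdA, hwd, ?_⟩
  rw [mul_div_cancel_left₀ _ hd0]

theorem exists_prime_of_notMem (h : Chart hx A) {w : Valuation K ℤᵐ⁰} (hA : ∀ a ∈ A, w a ≤ 1)
    {f : K} (hf : ¬ InLoc A w f) :
    ∃ v : Valuation K ℤᵐ⁰, IsDivisorial κ K v ∧ RegBasis κ v x ∧ (∀ a ∈ A, v a ≤ 1) ∧
      (∀ a ∈ A, v a < 1 → w a < 1) ∧ 1 < v f := by
  haveI := h.isNoetherian
  haveI := noeth_loc (A := A) w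
  have hfrac : ∀ f : K, ∃ g ∈ loc A w, ∃ k ∈ loc A w, k ≠ 0 ∧ f = g / k := by
    intro f
    obtain ⟨g, hg, k, hk, hk0, e⟩ := h.frac f
    exact ⟨g, le_loc hg, k, le_loc hk, hk0, e⟩
  have hnorm : ∀ z : K, IsIntegral (loc A w) z → z ∈ loc A w := by
    rintro z ⟨q, hq, hqz⟩
    refine inLoc_of_integral h hA ⟨q.map (algebraMap (loc A w) K), hq.map _, fun n => ?_, ?_⟩
    · rw [Polynomial.coeff_map]
      exact (q.coeff n).2
    · rw [Polynomial.eval_map]
      exact hqz
  obtain ⟨v, hvA, hvf, hloc⟩ := exists_dvr (loc A w) hfrac hnorm hf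
  have hvA' : ∀ a ∈ A, v a ≤ 1 := fun a ha => hvA a (le_loc ha)
  have hone : ∀ b ∈ A, w b = 1 → v b = 1 := by
    intro b hb hwb
    have hb0 : b ≠ 0 := by rintro rfl; simp at hwb
    have h1 := hvA' b hb
    have h2 := hvA _ (inv_loc hb hwb)
    have h3 : v b * v b⁻¹ = 1 := by rw [← map_mul, mul_inv_cancel₀ hb0, map_one]
    refine le_antisymm h1 ?_
    calc (1 : ℤᵐ⁰) = v b * v b⁻¹ := h3.symm
      _ ≤ v b * 1 := by gcongr
      _ = v b := mul_one _
  have hloc' : ∀ z, v z ≤ 1 → ∃ a ∈ A, ∃ b ∈ A, v b = 1 ∧ z = a / b := by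
    intro z hz
    obtain ⟨a, ⟨a1, ha1, a2, ha2, hwa, rfl⟩, b, ⟨b1, hb1, b2, hb2, hwb, rfl⟩, hvb, e⟩ :=
      hloc z hz
    have hva2 := hone a2 ha2 hwa
    have hvb2 := hone b2 hb2 hwb
    have ha20 : a2 ≠ 0 := by rintro rfl; simp at hwa
    have hb20 : b2 ≠ 0 := by rintro rfl; simp at hwb
    rw [map_div₀, hvb2, div_one] at hvb
    have hb10 : b1 ≠ 0 := by rintro rfl; simp at hvb
    refine ⟨a1 * b2, A.mul_mem ha1 hb2, a2 * b1, A.mul_mem ha2 hb1, ?_, ?_⟩
    · rw [map_mul, hva2, hvb, one_mul]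
    · rw [e]
      field_simp
  have hnt : ∃ a : K, a ≠ 0 ∧ v a ≠ 1 := by
    refine ⟨f, ?_, hvf.ne'⟩
    rintro rfl
    simp at hvf
  obtain ⟨h1, h2⟩ := h.isDivisorial hvA' hnt hloc'
  refine ⟨v, h1, h2, hvA', ?_, hvf⟩
  intro a ha hva
  by_contra hcon
  have hwa : w a = 1 := le_antisymm (hA a ha) (not_lt.mp hcon)
  rw [hone a ha hwa] at hva
  exact lt_irrefl _ hva

theorem mem_loc [Algebra.EssFiniteType κ K] (h : Chart hx A) {v : Valuation K ℤᵐ⁰}
    (hv : IsDivisorial κ K v) (hr : RegBasis κ v x) (hA : ∀ a ∈ A, v a ≤ 1) {z : K}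
    (hz : v z ≤ 1) : InLoc A v z := by
  by_contra hcon
  obtain ⟨v', hv', hr', hA', hlt, h1z⟩ := exists_prime_of_notMem h hA hcon
  -- a nonzero element of the centre of `v'`
  obtain ⟨g, hg0, hg1⟩ := hv'.nontrivial
  obtain ⟨f, hfA, hf0, hf1⟩ : ∃ f ∈ A, f ≠ 0 ∧ v' f < 1 := by
    obtain ⟨a, ha, b, hb, hb0, e⟩ := h.frac g
    have ha0 : a ≠ 0 := by
      rintro rfl
      rw [zero_div] at e
      exact hg0 e
    by_contra hall
    push Not at hall
    have h1 := le_antisymm (hA' a ha) (hall a ha ha0)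
    have h2 := le_antisymm (hA' b hb) (hall b hb hb0)
    apply hg1
    rw [e, map_div₀, h1, h2, div_one]
  have hvf := hlt f hfA hf1
  have hmin := Pf72953.Br.center_minimal h hv hr hA (f := ⟨f, hfA⟩)
    (fun h0 => hf0 (congrArg Subtype.val h0)) hvf
  have hmin' := Pf72953.Br.center_minimal h hv' hr' hA' (f := ⟨f, hfA⟩)
    (fun h0 => hf0 (congrArg Subtype.val h0)) hf1
  have hle : Pf72953.Br.center A v' hA' ≤ Pf72953.Br.center A v hA := by
    intro a ha
    rw [Pf72953.Br.mem_center] at ha ⊢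
    exact hlt _ a.2 ha
  have heq : Pf72953.Br.center A v hA = Pf72953.Br.center A v' hA' :=
    le_antisymm (hmin.2 hmin'.1 hle) hle
  have h3 := (Pf72953.Br.center_eq h hv hv' hr hr' hA hA' heq z).mp hz
  exact absurd h3 (not_le.mpr h1z)

end Pf72953.Pic
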