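import Mathlib

/-!
MODULE Pf72953q.TwoVal: two extensions of a discrete valuation to a finite extension, one of which has the larger prime.

PROOF.  (1) `v z < 1 ↔ T z < 1` for `z ∈ Z` (apply `hZ` to `z⁻¹`).
(2) Let `T p ≤ 1`; suppose `1 < v p`.  `p` is algebraic over `Z`; multiply its equation by an element of `Z` so that `∑ c_l p^l = 0`, `c_l ∈ Z`, `T c_l ≤ 1` for all `l`, and `T c_l = 1` for some `l`; let `m` be the largest index with `T c_m = 1`.
   Put `u = ∑_{l ≥ m} c_l p^(l - m)`.  Then `T u = 1` (`T c_l < 1` for `l > m`, `T p ≤ 1`).  Also `u = -∑_{l < m} c_l p^(l - m)`, so `v u < 1` (`v p⁻¹ < 1`, `v c_l ≤ 1`).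
   And `u` is integral over `O = {z : T z ≤ 1}`, in the sense of `h`: let `u_m = u`, `u_n = c_n` (`n` the degree), `u_(j-1) = p u_j + c_(j-1)`.  By descending induction on `j`: `u_j` is integral over `O` and `u_j p` is integral over `O`: `u_j p` is integral over `O[u_j]` because `u_j p^j + c_(j-1) p^(j-1) + ⋯ + c_0 = 0` (multiply by
   `u_j ^ (j - 1)`), so over `O`.  (Mathlib: `isIntegral_leadingCoeff_smul`, `integralClosure`; use the valuation subring `T.comap (algebraMap Z P)).valuationSubring` or the subring `O` of `Z`, and convert `IsIntegral` to the polynomial statement at the end.  Alternative: `u` is in every valuation ring of `P` containing `O`.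
   Other proofs are welcome, e.g. with the Dedekind domain `integralClosure O P` as in Pf72953/Extend.lean: the primes of `T` and `v` are maximal ideals, one contained in the other, so equal, and both valuation rings are the localisation at it.)
   Now `h u` gives `T u < 1`, contradiction.
(3) Let `v p ≤ 1`; suppose `1 < T p`.  `q = p⁻¹`: `T q < 1`.  Let `t ∈ Z` with `T t < 1`, `t ≠ 0` (from `hT`).  For some `N`, `T (q ^ N) ≤ T t` (values in `ℤᵐ⁰`), so by (2) `v (q ^ N / t) ≤ 1`, `v (q ^ N) ≤ v t < 1`, so `v q < 1` and `1 < v p`, contradiction.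
-/

set_option autoImplicit false
set_option linter.style.haveILetI false
set_option linter.unusedSectionVars false

open scoped WithZero

namespace Pf72953.Pic

namespace TwoValAux

theorem int_of_val {Z P : Type*} [Field Z] [Field P] [Algebra Z P] {T : Valuation P ℤᵐ⁰} {u : P}
    (hu : ∀ V : ValuationSubring P, (∀ z : Z, T (algebraMap Z P z) ≤ 1 → algebraMap Z P z ∈ V) → u ∈ V) :
    ∃ g : Polynomial Z, g.Monic ∧
      (∀ n, T (algebraMap Z P (g.coeff n)) ≤ 1) ∧ Polynomial.aeval u g = 0 := by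
  obtain ⟨s, hs⟩ : ∃ s : Set P, s = {a | ∃ z : Z, T (algebraMap Z P z) ≤ 1 ∧ algebraMap Z P z = a} :=
    ⟨_, rfl⟩
  have h1 : u ∈ (⨅ V : {V : ValuationSubring P // s ⊆ V.toSubring}, V.1.toSubring) := by
    rw [Subring.mem_iInf]
    rintro ⟨V, hV⟩
    refine hu V (fun z hz => ?_)
    exact hV (by rw [hs]; exact ⟨z, hz, rfl⟩)
  rw [iInf_valuationSubring_superset] at h1
  have h2 : IsIntegral (Subring.closure s) u := h1
  obtain ⟨q, hq, hq0⟩ := h2
  have hc1 : Subring.closure s ≤ (algebraMap Z P).range := by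
    rw [Subring.closure_le]
    intro a ha
    rw [hs] at ha
    obtain ⟨z, _, rfl⟩ := ha
    exact ⟨z, rfl⟩
  have hc2 : Subring.closure s ≤ T.integer := by
    rw [Subring.closure_le]
    intro a ha
    rw [hs] at ha
    obtain ⟨z, hz, rfl⟩ := ha
    exact hz
  have hlift : q.map (algebraMap (Subring.closure s) P) ∈ Polynomial.lifts (algebraMap Z P) := by
    rw [Polynomial.lifts_iff_coeff_lifts]
    intro n
    rw [Polynomial.coeff_map]
    obtain ⟨z, hz⟩ := hc1 (q.coeff n).2
    exact ⟨z, hz⟩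
  obtain ⟨g, hg1, _, hg2⟩ := Polynomial.lifts_and_natDegree_eq_and_monic hlift (hq.map _)
  refine ⟨g, hg2, ?_, ?_⟩
  · intro n
    have h3 : algebraMap Z P (g.coeff n) = ((q.coeff n : Subring.closure s) : P) := by
      have := congrArg (fun r => Polynomial.coeff r n) hg1
      simp only [Polynomial.coeff_map] at this
      exact this
    rw [h3]
    exact hc2 (q.coeff n).2
  · rw [Polynomial.aeval_def, Polynomial.eval₂_eq_eval_map, hg1, ← Polynomial.eval₂_eq_eval_map]
    exact hq0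

theorem relation {Z P : Type*} [Field Z] [Field P] [Algebra Z P] [FiniteDimensional Z P]
    (T : Valuation P ℤᵐ⁰) (p : P) : ∃ (N m : ℕ) (c : ℕ → Z), m ≤ N ∧
      (∀ l, T (algebraMap Z P (c l)) ≤ 1) ∧ T (algebraMap Z P (c m)) = 1 ∧
      (∀ l, m < l → l ≤ N → T (algebraMap Z P (c l)) < 1) ∧
      ∑ l ∈ Finset.range (N + 1), algebraMap Z P (c l) * p ^ l = 0 := by
  classical
  have hint : IsIntegral Z p := Algebra.IsIntegral.isIntegral p
  obtain ⟨f, hf⟩ : ∃ f, f = minpoly Z p := ⟨_, rfl⟩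
  have hf0 : f ≠ 0 := by rw [hf]; exact minpoly.ne_zero hint
  have hfa : Polynomial.aeval p f = 0 := by rw [hf]; exact minpoly.aeval Z p
  obtain ⟨l0, hl0, hmax⟩ := Finset.exists_max_image (Finset.range (f.natDegree + 1))
    (fun l => T (algebraMap Z P (f.coeff l))) ⟨0, by simp⟩
  have hpos : T (algebraMap Z P (f.coeff l0)) ≠ 0 := by
    have h1 := hmax f.natDegree (by simp)
    intro h2
    simp only [h2, le_zero_iff] at h1
    rw [map_eq_zero, map_eq_zero] at h1
    exact hf0 (Polynomial.leadingCoeff_eq_zero.mp h1)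
  have hc0 : f.coeff l0 ≠ 0 := by
    intro h
    rw [h] at hpos
    simp at hpos
  have hTl : ∀ l, T (algebraMap Z P ((f.coeff l0)⁻¹ * f.coeff l)) ≤ 1 := by
    intro l
    by_cases hl : l ∈ Finset.range (f.natDegree + 1)
    · rw [map_mul, map_inv₀, map_mul, map_inv₀]
      have h1 := hmax l hl
      rw [inv_mul_le_one₀ (zero_lt_iff.mpr hpos)]
      exact h1
    · have h1 : f.coeff l = 0 := by
        apply Polynomial.coeff_eq_zero_of_natDegree_lt
        rw [Finset.mem_range] at hl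
        omega
      rw [h1]
      simp
  have hT0 : T (algebraMap Z P ((f.coeff l0)⁻¹ * f.coeff l0)) = 1 := by
    rw [inv_mul_cancel₀ hc0]
    simp
  obtain ⟨m, hm, hmmax⟩ := Finset.exists_max_image ((Finset.range (f.natDegree + 1)).filter
    (fun l => T (algebraMap Z P ((f.coeff l0)⁻¹ * f.coeff l)) = 1)) id ⟨l0, by
      rw [Finset.mem_filter]; exact ⟨hl0, hT0⟩⟩
  rw [Finset.mem_filter, Finset.mem_range] at hm
  refine ⟨f.natDegree, m, fun l => (f.coeff l0)⁻¹ * f.coeff l, by omega, hTl, hm.2, ?_, ?_⟩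
  · intro l hl hlN
    refine lt_of_le_of_ne (hTl l) ?_
    intro h1
    have := hmmax l (by rw [Finset.mem_filter, Finset.mem_range]; exact ⟨by omega, h1⟩)
    simp only [id] at this
    omega
  · rw [Polynomial.aeval_eq_sum_range] at hfa
    have h1 : ∑ l ∈ Finset.range (f.natDegree + 1), algebraMap Z P ((f.coeff l0)⁻¹ * f.coeff l) * p ^ l =
        algebraMap Z P (f.coeff l0)⁻¹ * ∑ i ∈ Finset.range (f.natDegree + 1), f.coeff i • p ^ i := by
      rw [Finset.mul_sum]
      refine Finset.sum_congr rfl fun i _ => ?_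
      rw [map_mul, Algebra.smul_def]
      ring
    rw [h1, hfa, mul_zero]

theorem one_dir {Z P : Type*} [Field Z] [Field P] [Algebra Z P] [FiniteDimensional Z P]
    {T v : Valuation P ℤᵐ⁰}
    (hZ : ∀ z : Z, v (algebraMap Z P z) ≤ 1 ↔ T (algebraMap Z P z) ≤ 1)
    (h : ∀ p : P, (∃ g : Polynomial Z, g.Monic ∧
      (∀ n, T (algebraMap Z P (g.coeff n)) ≤ 1) ∧ Polynomial.aeval p g = 0) → v p < 1 → T p < 1)
    (p : P) (hp : T p ≤ 1) : v p ≤ 1 := by
  by_contra hv
  push Not at hv
  obtain ⟨N, m, c, hmN, hc1, hcm, hc2, hsum⟩ := relation (Z := Z) T p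
  have hp0 : p ≠ 0 := by rintro rfl; simp at hv
  obtain ⟨u, hu⟩ : ∃ u, u = ∑ l ∈ Finset.Ico m (N + 1), algebraMap Z P (c l) * p ^ (l - m) := ⟨_, rfl⟩
  have hup : ∑ l ∈ Finset.range m, algebraMap Z P (c l) * p ^ l + u * p ^ m = 0 := by
    rw [← hsum, ← Finset.sum_range_add_sum_Ico _ (show m ≤ N + 1 by omega), hu, Finset.sum_mul]
    congr 1
    refine Finset.sum_congr rfl fun l hl => ?_
    rw [Finset.mem_Ico] at hl
    rw [mul_assoc, ← pow_add, Nat.sub_add_cancel hl.1]
  have hTu : T u = 1 := by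
    rw [hu, Finset.sum_eq_sum_Ico_succ_bot (show m < N + 1 by omega), Nat.sub_self, pow_zero, mul_one]
    rw [Valuation.map_add_eq_of_lt_left, hcm]
    rw [hcm]
    refine Valuation.map_sum_lt _ one_ne_zero ?_
    intro l hl
    rw [Finset.mem_Ico] at hl
    rw [map_mul, map_pow]
    exact lt_of_le_of_lt (mul_le_of_le_one_right' (pow_le_one₀ zero_le' hp)) (hc2 l (by omega) (by omega))
  have hm1 : 1 ≤ m := by
    by_contra hm0
    have : m = 0 := by omega
    subst this
    have h1 : u = 0 := by simpa using hup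
    rw [h1] at hTu
    simp at hTu
  have hvu : v u < 1 := by
    by_contra hvu
    push Not at hvu
    have h1 : u * p ^ m = -∑ l ∈ Finset.range m, algebraMap Z P (c l) * p ^ l := by
      linear_combination hup
    have h2 : v (u * p ^ m) ≤ v p ^ (m - 1) := by
      rw [h1, Valuation.map_neg]
      refine Valuation.map_sum_le _ ?_
      intro l hl
      rw [Finset.mem_range] at hl
      rw [map_mul, map_pow]
      exact (mul_le_of_le_one_left' ((hZ _).mpr (hc1 l))).trans (pow_le_pow_right₀ hv.le (by omega))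
    rw [map_mul, map_pow] at h2
    have h3 : v p ^ m ≤ v u * v p ^ m := le_mul_of_one_le_left' hvu
    have h4 : v p ^ (m - 1) < v p ^ m := pow_lt_pow_right₀ hv (by omega)
    exact absurd (h3.trans h2) (not_le.mpr h4)
  have hint := int_of_val (Z := Z) (T := T) (u := u) (by
    intro V hV
    have hcV : ∀ l, algebraMap Z P (c l) ∈ V := fun l => hV _ (hc1 l)
    rcases V.mem_or_inv_mem p with hpV | hpV
    · rw [hu]
      exact sum_mem fun l _ => mul_mem (hcV l) (pow_mem hpV _)
    · have h1 : u = -∑ l ∈ Finset.range m, algebraMap Z P (c l) * (p⁻¹) ^ (m - l) := by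
        have h2 : u * p ^ m = -∑ l ∈ Finset.range m, algebraMap Z P (c l) * p ^ l := by
          linear_combination hup
        have h3 : u = u * p ^ m * (p⁻¹) ^ m := by
          rw [mul_assoc, ← mul_pow, mul_inv_cancel₀ hp0, one_pow, mul_one]
        rw [h3, h2, neg_mul, Finset.sum_mul]
        congr 1
        refine Finset.sum_congr rfl fun l hl => ?_
        rw [Finset.mem_range] at hl
        rw [mul_assoc]
        congr 1
        have h4 : (p⁻¹) ^ m = (p⁻¹) ^ l * (p⁻¹) ^ (m - l) := by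
          rw [← pow_add]; congr 1; omega
        rw [h4, ← mul_assoc, ← mul_pow, mul_inv_cancel₀ hp0, one_pow, one_mul]
      rw [h1]
      exact neg_mem (sum_mem fun l _ => mul_mem (hcV l) (pow_mem hpV _)))
  have := h u hint hvu
  rw [hTu] at this
  exact lt_irrefl _ this

end TwoValAux

theorem equiv_of_integral {Z P : Type*} [Field Z] [Field P] [Algebra Z P] [FiniteDimensional Z P]
    {T v : Valuation P ℤᵐ⁰} (hT : ∃ z : Z, z ≠ 0 ∧ T (algebraMap Z P z) ≠ 1)
    (hZ : ∀ z : Z, v (algebraMap Z P z) ≤ 1 ↔ T (algebraMap Z P z) ≤ 1)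
    (h : ∀ p : P, (∃ g : Polynomial Z, g.Monic ∧
      (∀ n, T (algebraMap Z P (g.coeff n)) ≤ 1) ∧ Polynomial.aeval p g = 0) → v p < 1 → T p < 1)
    (p : P) : v p ≤ 1 ↔ T p ≤ 1 := by
  refine ⟨fun hv => ?_, fun hp => TwoValAux.one_dir hZ h p hp⟩
  by_contra hT1
  push Not at hT1
  have hp0 : p ≠ 0 := by rintro rfl; simp at hT1
  -- an element of `Z` of value `< 1`
  obtain ⟨t, ht0, ht1⟩ : ∃ t : Z, t ≠ 0 ∧ T (algebraMap Z P t) < 1 := by
    obtain ⟨z, hz0, hz1⟩ := hT
    rcases lt_or_gt_of_ne hz1 with h1 | h1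
    · exact ⟨z, hz0, h1⟩
    · refine ⟨z⁻¹, inv_ne_zero hz0, ?_⟩
      rw [map_inv₀, map_inv₀]
      exact inv_lt_one_of_one_lt₀ h1
  have hta : algebraMap Z P t ≠ 0 := by simpa using ht0
  have hTt0 : T (algebraMap Z P t) ≠ 0 := by rwa [Ne, map_eq_zero]
  have hvt0 : v (algebraMap Z P t) ≠ 0 := by rwa [Ne, map_eq_zero]
  have hvt : v (algebraMap Z P t) < 1 := by
    by_contra h1
    push Not at h1
    have h2 := (hZ t⁻¹).mp (by rw [map_inv₀, map_inv₀]; exact inv_le_one_of_one_le₀ h1)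
    rw [map_inv₀, map_inv₀] at h2
    have h3 : 1 < (T (algebraMap Z P t))⁻¹ := (one_lt_inv₀ (zero_lt_iff.mpr hTt0)).mpr ht1
    exact absurd h2 (not_le.mpr h3)
  have hq : T p⁻¹ < 1 := by rw [map_inv₀]; exact inv_lt_one_of_one_lt₀ hT1
  obtain ⟨N, hN⟩ := exists_pow_lt₀ hq (Units.mk0 _ hTt0)
  rw [Units.val_mk0] at hN
  have h1 : T ((p⁻¹) ^ N / algebraMap Z P t) ≤ 1 := by
    rw [map_div₀, map_pow]
    exact div_le_one_of_le₀ hN.le zero_le'
  have h2 := TwoValAux.one_dir hZ h _ h1
  rw [map_div₀, map_pow, div_le_one₀ (zero_lt_iff.mpr hvt0)] at h2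
  have h3 : (v p⁻¹) ^ N < 1 := lt_of_le_of_lt h2 hvt
  have h4 : v p⁻¹ < 1 := by
    by_contra h5
    push Not at h5
    exact absurd (one_le_pow₀ h5 (n := N)) (not_le.mpr h3)
  rw [map_inv₀] at h4
  have hvp0 : v p ≠ 0 := by rwa [Ne, map_eq_zero]
  have h5 : 1 < v p := by
    by_contra h6
    push Not at h6
    exact absurd ((one_le_inv₀ (zero_lt_iff.mpr hvp0)).mpr h6) (not_le.mpr h4)
  exact absurd hv (not_le.mpr h5)

end Pf72953.Pic
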