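import Mathlib
import Pool.Agent.Lib.Pf72953q.LocHart
import Pool.Agent.Lib.Pf72953q.TwoVal

/-!
MODULE Pf72953q.SameP: a valuation of `L` whose centre on `W` contains the centre of a valuation over the prime divisor `T` lies over `T` or is trivial on `P`.

PROOF.  Let `R = bc B Z (M.A i)`, a chart of `Z/B` (`(chart_of_model M i).baseChange (hx i) hgenZ`, see FinBad.lean), `A = W.A j`.
(1) Every element of `R` (in `L`) is in `A_w = InLoc A w`: for `f ∈ M.A i` by `hdom` (`w ≤ 1` on `M.A i`: `hwT`, `hT.prime.center`), for elements of `B` clear, sums and products (`Algebra.adjoin_induction`).  If `z ∈ A_w`, `z = a / b`, `w b = 1`, then `v b = 1` (`hvA`, `hvw`), so `v z ≤ 1`, and `v z < 1 → w z < 1`.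
(2) `v` is not trivial on `Z` (`P/Z` is algebraic: `val_eq_one_of_isIntegral`, see `FinBadAux.nontriv`), so there is `0 ≠ f ∈ R` with `v f < 1` (`Z` is the fraction field of `R`), so `w f < 1`, `T f < 1`.  `T|Z` is divisorial over `B` with regular basis `x_i` (`FinBadAux.div_over`-like: `IsDivisorial.restrict`, `Mov.IsDivisorial.over`; `PrimeAt.regBasis`), so its centre in
   `R` is a minimal prime over `(f)` (`center_minimal`), and the centre of `v|Z` is a prime containing `f` and contained in the centre of `T|Z` (by (1) and `hwT`), so they are equal: for `b ∈ R`: `v b < 1 ↔ T b < 1`.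
(3) For `z ∈ Z` with `T z ≤ 1`: `z = a / b`, `a, b ∈ R`, `T b = 1` (`mem_loc`), so `v b = 1`, `v z ≤ 1`, and `T z < 1 → v z < 1`.  So `v z ≤ 1 ↔ T z ≤ 1` for all `z ∈ Z` (apply this to `z⁻¹`).
(4) Apply `equiv_of_integral` (TwoVal.lean) to `T` and `v.comap (algebraMap P L)`: let `p ∈ P` be a root of a monic polynomial with coefficients `c ∈ Z`, `T c ≤ 1`.  Each `c = a / b`, `a, b ∈ R`, `T b = 1`, `w b = 1`, so `b⁻¹ ∈ A_w` and `c ∈ A_w`.  By `inLoc_of_integral` (LocHart.lean) `p ∈ A_w` (in `L`), so by (1): `v p < 1 → w p < 1 → T p < 1`.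
-/

set_option autoImplicit false
set_option linter.style.haveILetI false
set_option linter.unusedSectionVars false

open scoped WithZero
open Pf72953 Pf72953.Mov Pf72953.Up Pf72953.Br

namespace Pf72953.Pic

namespace SamePAux

/-- equivalent valuations have the same maximal ideal -/
theorem lt_iff {K : Type*} [Field K] {u u' : Valuation K ℤᵐ⁰} (h : ∀ z, u z ≤ 1 ↔ u' z ≤ 1)
    (z : K) : u z < 1 ↔ u' z < 1 := by
  have key : ∀ {u u' : Valuation K ℤᵐ⁰}, (∀ z, u z ≤ 1 ↔ u' z ≤ 1) → u z < 1 → u' z < 1 := by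
    intro u u' h hz
    rcases eq_or_ne z 0 with rfl | hz0
    · simp
    by_contra hcon
    rw [not_lt] at hcon
    have h1 : u' z⁻¹ ≤ 1 := by
      rw [map_inv₀]
      exact inv_le_one_of_one_le₀ hcon
    have h2 : u z⁻¹ ≤ 1 := (h _).2 h1
    rw [map_inv₀] at h2
    have h3 : 0 < u z := zero_lt_iff.mpr ((Valuation.ne_zero_iff u).mpr hz0)
    exact absurd h2 (not_le.mpr ((one_lt_inv₀ h3).mpr hz))
  exact ⟨key h, key fun z => (h z).symm⟩

theorem eq_one_iff {K : Type*} [Field K] {u u' : Valuation K ℤᵐ⁰} (h : ∀ z, u z ≤ 1 ↔ u' z ≤ 1)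
    (z : K) : u z = 1 ↔ u' z = 1 := by
  constructor
  · intro h1
    exact le_antisymm ((h z).1 h1.le) (not_lt.1 fun h2 => ((lt_iff h z).2 h2).ne h1)
  · intro h1
    exact le_antisymm ((h z).2 h1.le) (not_lt.1 fun h2 => ((lt_iff h z).1 h2).ne h1)

section loc

variable {κ K : Type*} [Field κ] [Field K] [Algebra κ K] {A : Subalgebra κ K}
  {w : Valuation K ℤᵐ⁰}

theorem ne_zero_of {b : K} (hb : w b = 1) : b ≠ 0 := by
  rintro rfl
  rw [map_zero] at hb
  exact zero_ne_one hb

theorem inLoc_of_mem {a : K} (ha : a ∈ A) : InLoc A w a :=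
  ⟨a, ha, 1, A.one_mem, map_one w, (div_one a).symm⟩

theorem inLoc_add {z z' : K} (hz : InLoc A w z) (hz' : InLoc A w z') : InLoc A w (z + z') := by
  obtain ⟨a, ha, b, hb, hb1, rfl⟩ := hz
  obtain ⟨a', ha', b', hb', hb1', rfl⟩ := hz'
  refine ⟨a * b' + b * a', A.add_mem (A.mul_mem ha hb') (A.mul_mem hb ha'), b * b',
    A.mul_mem hb hb', by rw [map_mul, hb1, hb1', one_mul], ?_⟩
  rw [div_add_div _ _ (ne_zero_of hb1) (ne_zero_of hb1')]

theorem inLoc_mul {z z' : K} (hz : InLoc A w z) (hz' : InLoc A w z') : InLoc A w (z * z') := by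
  obtain ⟨a, ha, b, hb, hb1, rfl⟩ := hz
  obtain ⟨a', ha', b', hb', hb1', rfl⟩ := hz'
  exact ⟨a * a', A.mul_mem ha ha', b * b', A.mul_mem hb hb',
    by rw [map_mul, hb1, hb1', one_mul], (div_mul_div_comm _ _ _ _)⟩

theorem inLoc_inv {z : K} (hz : InLoc A w z) (h1 : w z = 1) : InLoc A w z⁻¹ := by
  obtain ⟨a, ha, b, hb, hb1, rfl⟩ := hz
  refine ⟨b, hb, a, ha, ?_, inv_div _ _⟩
  rwa [map_div₀, hb1, div_one] at h1

theorem inLoc_div {z z' : K} (hz : InLoc A w z) (hz' : InLoc A w z') (h1 : w z' = 1) :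
    InLoc A w (z / z') := by
  rw [div_eq_mul_inv]
  exact inLoc_mul hz (inLoc_inv hz' h1)

/-- elements of the local ring of `w` at a valuation whose centre contains the centre of `w` -/
theorem inLoc_val {v : Valuation K ℤᵐ⁰} (hvA : ∀ a ∈ A, v a ≤ 1)
    (hvw : ∀ a ∈ A, v a < 1 → w a < 1) {z : K} (hz : InLoc A w z) :
    v z ≤ 1 ∧ (v z < 1 → w z < 1) := by
  obtain ⟨a, ha, b, hb, hb1, rfl⟩ := hz
  have h1 : v b = 1 := le_antisymm (hvA b hb) (not_lt.1 fun h => (hvw b hb h).ne hb1)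
  rw [map_div₀, map_div₀, h1, hb1, div_one, div_one]
  exact ⟨hvA a ha, hvw a ha⟩

/-- the centre is a prime ideal -/
theorem center_prime {v : Valuation K ℤᵐ⁰} (hA : ∀ a ∈ A, v a ≤ 1) : (center A v hA).IsPrime := by
  refine ⟨?_, ?_⟩
  · intro htop
    have h1 : (1 : A) ∈ center A v hA := by rw [htop]; trivial
    rw [mem_center, OneMemClass.coe_one, map_one] at h1
    exact lt_irrefl _ h1
  · intro a b hab
    rw [mem_center, MulMemClass.coe_mul, map_mul] at hab
    rw [mem_center, mem_center]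
    by_contra hcon
    push Not at hcon
    have h1 := le_antisymm (hA _ a.2) hcon.1
    have h2 := le_antisymm (hA _ b.2) hcon.2
    rw [h1, h2, one_mul] at hab
    exact lt_irrefl _ hab

end loc

end SamePAux

open SamePAux

variable {k B Y Z P L : Type*} [Field k] [CharZero k] [Field B] [CharZero B] [Field Y] [Field Z]
  [Field P] [Field L] [Algebra k B] [Algebra k Y] [Algebra k Z] [Algebra k P] [Algebra k L]
  [Algebra B Z] [Algebra B P] [Algebra B L] [Algebra Y Z] [Algebra Y P] [Algebra Y L]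
  [Algebra Z P] [Algebra Z L] [Algebra P L]
  [IsScalarTower k B Z] [IsScalarTower k B P] [IsScalarTower k B L] [IsScalarTower k Y Z]
  [IsScalarTower k Y P] [IsScalarTower k Y L] [IsScalarTower k Z P] [IsScalarTower k Z L]
  [IsScalarTower k P L] [IsScalarTower B Z P] [IsScalarTower B Z L] [IsScalarTower B P L]
  [IsScalarTower Y Z P] [IsScalarTower Y Z L] [IsScalarTower Y P L] [IsScalarTower Z P L]
  [Algebra.EssFiniteType k B] [Algebra.EssFiniteType k Y] [Algebra.EssFiniteType k Z]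
  [Algebra.EssFiniteType k L] [FiniteDimensional Z P] {M : SmoothModel k Y} {W : SmoothModel B L}

theorem over_of_center (hx : ∀ i, IsTranscendenceBasis B (fun a => algebraMap Y Z (M.x i a)))
    (hgenZ : ∀ z : Z, z ∈ IntermediateField.adjoin B (Set.range (algebraMap Y Z)))
    (hdom : Dominates W M) {i : M.I} {T : Valuation P ℤᵐ⁰} (hT : PrimeDiv k M B Z i T) {j : W.I}
    {w v : Valuation L ℤᵐ⁰} (hwT : Over T w) (hwA : ∀ a ∈ W.A j, w a ≤ 1)
    (hvA : ∀ a ∈ W.A j, v a ≤ 1) (hvw : ∀ a ∈ W.A j, v a < 1 → w a < 1)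
    (hnt : ∃ p : P, p ≠ 0 ∧ v (algebraMap P L p) ≠ 1) : Over T v := by
  haveI : Algebra.EssFiniteType B Z := Algebra.EssFiniteType.of_comp k B Z
  haveI : Algebra.EssFiniteType k P := Algebra.EssFiniteType.comp k Z P
  -- the chart of `Z / B`
  have hch : Chart (hx i) (bc B Z (M.A i)) := (chart_of_model M i).baseChange (hx i) hgenZ
  have hTnt : ∃ z : Z, z ≠ 0 ∧ T (algebraMap Z P z) ≠ 1 := Br.FinBadAux.nontriv hT.div
  have hTdiv : IsDivisorial B Z (T.comap (algebraMap Z P)) := by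
    have h1 : IsDivisorial k Z (T.comap (algebraMap Z P)) := hT.div.restrict hTnt
    refine Pf72953.Mov.IsDivisorial.over h1 fun b hb => ?_
    rw [Valuation.comap_apply, ← IsScalarTower.algebraMap_apply B Z P]
    exact hT.triv b hb
  have hTreg := hT.prime.regBasis (hx i)
  have hTle : ∀ a ∈ bc B Z (M.A i), T.comap (algebraMap Z P) a ≤ 1 := by
    intro a ha
    induction ha using Algebra.adjoin_induction with
    | mem x hx =>
      obtain ⟨y, hy, rfl⟩ := hx
      rw [Valuation.comap_apply, ← IsScalarTower.algebraMap_apply Y Z P]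
      exact hT.prime.center y hy
    | algebraMap r =>
      rw [Valuation.comap_apply, ← IsScalarTower.algebraMap_apply B Z P]
      rcases eq_or_ne r 0 with rfl | hr
      · simp
      · exact (hT.triv r hr).le
    | add x y _ _ hx hy =>
      exact (Valuation.map_add _ _ _).trans (max_le hx hy)
    | mul x y _ _ hx hy =>
      rw [map_mul]
      exact mul_le_one' hx hy
  -- `w` and `T`
  have hwT' : ∀ p : P, (w.comap (algebraMap P L)) p ≤ 1 ↔ T p ≤ 1 := hwT
  have hwlt : ∀ p : P, w (algebraMap P L p) < 1 ↔ T p < 1 := fun p => lt_iff hwT' p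
  have hwone : ∀ p : P, w (algebraMap P L p) = 1 ↔ T p = 1 := fun p => eq_one_iff hwT' p
  -- (1)
  have hloc : ∀ z ∈ bc B Z (M.A i), InLoc (W.A j) w (algebraMap Z L z) := by
    intro z hz
    induction hz using Algebra.adjoin_induction with
    | mem x hx =>
      obtain ⟨y, hy, rfl⟩ := hx
      rw [← IsScalarTower.algebraMap_apply Y Z L]
      refine hdom j i w hwA (fun f hf => ?_) y hy
      rw [IsScalarTower.algebraMap_apply Y P L]
      exact (hwT _).2 (hT.prime.center f hf)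
    | algebraMap r =>
      rw [← IsScalarTower.algebraMap_apply B Z L]
      exact inLoc_of_mem ((W.A j).algebraMap_mem r)
    | add x y _ _ hx hy =>
      rw [map_add]
      exact inLoc_add hx hy
    | mul x y _ _ hx hy =>
      rw [map_mul]
      exact inLoc_mul hx hy
  have hvR : ∀ z ∈ bc B Z (M.A i), v (algebraMap Z L z) ≤ 1 := fun z hz =>
    (inLoc_val hvA hvw (hloc z hz)).1
  have hvRw : ∀ z ∈ bc B Z (M.A i), v (algebraMap Z L z) < 1 → T (algebraMap Z P z) < 1 := by
    intro z hz h1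
    have h2 := (inLoc_val hvA hvw (hloc z hz)).2 h1
    rw [IsScalarTower.algebraMap_apply Z P L] at h2
    exact (hwlt _).1 h2
  -- (2)
  obtain ⟨f, hfR, hf0, hvf⟩ : ∃ f ∈ bc B Z (M.A i), f ≠ 0 ∧ v (algebraMap Z L f) < 1 := by
    obtain ⟨z, hz0, hz⟩ : ∃ z : Z, z ≠ 0 ∧ v (algebraMap Z L z) ≠ 1 := by
      by_contra hcon
      push Not at hcon
      obtain ⟨p, hp0, hp1⟩ := hnt
      have h1 : algebraMap P L p ≠ 0 := by simpa using hp0
      have h2 : IsIntegral Z (algebraMap P L p) :=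
        (Algebra.IsIntegral.isIntegral (R := Z) p).algebraMap
      exact hp1 (val_eq_one_of_isIntegral hcon h1 h2)
    obtain ⟨g, hg, h, hh, hh0, rfl⟩ := hch.frac z
    by_contra hcon
    push Not at hcon
    have hg0 : g ≠ 0 := by
      rintro rfl
      exact hz0 (zero_div _)
    have h1 : v (algebraMap Z L g) = 1 := le_antisymm (hvR g hg) (hcon g hg hg0)
    have h2 : v (algebraMap Z L h) = 1 := le_antisymm (hvR h hh) (hcon h hh hh0)
    apply hz
    rw [map_div₀, map_div₀, h1, h2, div_one]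
  have hTf : T (algebraMap Z P f) < 1 := hvRw f hfR hvf
  have hvle : ∀ a ∈ bc B Z (M.A i), v.comap (algebraMap Z L) a ≤ 1 := hvR
  have hmin := center_minimal hch hTdiv hTreg hTle (f := ⟨f, hfR⟩)
    (fun h0 => hf0 (congrArg Subtype.val h0)) hTf
  have hcen : ∀ b ∈ bc B Z (M.A i), T (algebraMap Z P b) < 1 → v (algebraMap Z L b) < 1 := by
    have h1 : center (bc B Z (M.A i)) (T.comap (algebraMap Z P)) hTle ≤
        center (bc B Z (M.A i)) (v.comap (algebraMap Z L)) hvle := by
      refine hmin.2 ⟨center_prime hvle, ?_⟩ ?_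
      · rw [Ideal.span_le, Set.singleton_subset_iff]
        exact hvf
      · intro a ha
        exact hvRw a a.2 ha
    intro b hb hTb
    exact h1 (show (⟨b, hb⟩ : bc B Z (M.A i)) ∈ _ from hTb)
  -- (3)
  have hT3 : ∀ z : Z, T (algebraMap Z P z) ≤ 1 →
      ∃ a ∈ bc B Z (M.A i), ∃ b ∈ bc B Z (M.A i), T (algebraMap Z P b) = 1 ∧ z = a / b :=
    fun z hz => mem_loc hch hTdiv hTreg hTle hz
  have h3 : ∀ z : Z, T (algebraMap Z P z) ≤ 1 → v (algebraMap Z L z) ≤ 1 ∧
      (T (algebraMap Z P z) < 1 → v (algebraMap Z L z) < 1) := by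
    intro z hz
    obtain ⟨a, ha, b, hb, hb1, rfl⟩ := hT3 z hz
    have hvb : v (algebraMap Z L b) = 1 :=
      le_antisymm (hvR b hb) (not_lt.1 fun h => (hvRw b hb h).ne hb1)
    rw [map_div₀, map_div₀, map_div₀, map_div₀, hvb, hb1, div_one, div_one]
    exact ⟨hvR a ha, hcen a ha⟩
  have hZ : ∀ z : Z, (v.comap (algebraMap P L)) (algebraMap Z P z) ≤ 1 ↔
      T (algebraMap Z P z) ≤ 1 := by
    intro z
    rw [Valuation.comap_apply, ← IsScalarTower.algebraMap_apply Z P L]
    refine ⟨fun h1 => ?_, fun h1 => (h3 z h1).1⟩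
    by_contra hcon
    rw [not_le] at hcon
    have hz0 : z ≠ 0 := by
      rintro rfl
      rw [map_zero, map_zero] at hcon
      exact not_lt_zero hcon
    have h4 : T (algebraMap Z P z⁻¹) < 1 := by
      rw [map_inv₀, map_inv₀]
      exact inv_lt_one_of_one_lt₀ hcon
    have h5 := (h3 z⁻¹ h4.le).2 h4
    rw [map_inv₀, map_inv₀] at h5
    have h6 : 0 < v (algebraMap Z L z) :=
      zero_lt_iff.mpr ((Valuation.ne_zero_iff v).mpr (by simpa using hz0))
    exact absurd h1 (not_le.mpr ((inv_lt_one₀ h6).mp h5))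
  -- (4)
  intro p
  refine equiv_of_integral (v := v.comap (algebraMap P L)) hTnt hZ (fun p hp hvp => ?_) p
  obtain ⟨g, hg, hgc, hgp⟩ := hp
  have hW : Chart (W.tb j) (W.A j) := chart_of_model W j
  have hloc' : InLoc (W.A j) w (algebraMap P L p) := by
    refine inLoc_of_integral hW hwA ⟨g.map (algebraMap Z L), hg.map _, fun n => ?_, ?_⟩
    · rw [Polynomial.coeff_map]
      obtain ⟨a, ha, b, hb, hb1, hab⟩ := hT3 _ (hgc n)
      rw [hab, map_div₀]
      refine inLoc_div (hloc a ha) (hloc b hb) ?_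
      rw [IsScalarTower.algebraMap_apply Z P L]
      exact (hwone _).2 hb1
    · rw [Polynomial.eval_map, ← Polynomial.aeval_def, Polynomial.aeval_algebraMap_apply, hgp,
        map_zero]
  exact (hwlt p).1 ((inLoc_val hvA hvw hloc').2 hvp)

end Pf72953.Pic
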