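import Mathlib
import Pool.Agent.Lib.Pf72953q.SameP

/-!
MODULE Pf72953q.KeyW: a function with a pole at a valuation over `T` has a pole at a prime divisor of `W` which lies over `T` or is trivial on `P`.

PROOF.  `f` is not in `InLoc (W.A j) w` (all elements of which have value `≤ 1` at `w`), so `exists_prime_of_notMem` (LocHart.lean; `chart_of_model W j`) gives `v`; if `v` is not trivial on `P` use `over_of_center` (SameP.lean).
-/

set_option autoImplicit false
set_option linter.style.haveILetI false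
set_option linter.unusedSectionVars false

open scoped WithZero
open Pf72953 Pf72953.Mov Pf72953.Up Pf72953.Br

namespace Pf72953.Pic

variable {k B Y Z P L : Type*} [Field k] [CharZero k] [Field B] [CharZero B] [Field Y] [Field Z]
  [Field P] [Field L] [Algebra k B] [Algebra k Y] [Algebra k Z] [Algebra k P] [Algebra k L]
  [Algebra B Z] [Algebra B P] [Algebra B L] [Algebra Y Z] [Algebra Y P] [Algebra Y L]
  [Algebra Z P] [Algebra Z L] [Algebra P L]
  [IsScalarTower k B Z] [IsScalarTower k B P] [IsScalarTower k B L] [IsScalarTower k Y Z]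
  [IsScalarTower k Y P] [IsScalarTower k Y L] [IsScalarTower k Z P] [IsScalarTower k Z L]
  [IsScalarTower k P L] [IsScalarTower B Z P] [IsScalarTower B Z L] [IsScalarTower B P L]
  [IsScalarTower Y Z P] [IsScalarTower Y Z L] [IsScalarTower Y P L] [IsScalarTower Z P L]
  [Algebra.EssFiniteType k B] [Algebra.EssFiniteType k Y] [Algebra.EssFiniteType k Z]
  [Algebra.EssFiniteType k L] [FiniteDimensional Z P] {M : SmoothModel k Y} {W : SmoothModel B L}

theorem exists_wprime (hx : ∀ i, IsTranscendenceBasis B (fun a => algebraMap Y Z (M.x i a)))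
    (hgenZ : ∀ z : Z, z ∈ IntermediateField.adjoin B (Set.range (algebraMap Y Z)))
    (hdom : Dominates W M) {i : M.I} {T : Valuation P ℤᵐ⁰} (hT : PrimeDiv k M B Z i T) {j : W.I}
    {w : Valuation L ℤᵐ⁰} (hwT : Over T w) (hwA : ∀ a ∈ W.A j, w a ≤ 1) {f : L}
    (hf : 1 < w f) :
    ∃ v : Valuation L ℤᵐ⁰, WPrime W j v ∧ 1 < v f ∧
      ((∀ p : P, p ≠ 0 → v (algebraMap P L p) = 1) ∨ Over T v) := by
  have hf' : ¬ InLoc (W.A j) w f := by
    rintro ⟨a, ha, b, hb, hwb, rfl⟩
    rw [map_div₀, hwb, div_one] at hf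
    exact absurd (hwA a ha) (not_le.2 hf)
  obtain ⟨v, hvdiv, hvreg, hvA, hvw, hvf⟩ := exists_prime_of_notMem (chart_of_model W j) hwA hf'
  refine ⟨v, ⟨hvdiv, hvreg, hvA⟩, hvf, ?_⟩
  by_cases hnt : ∃ p : P, p ≠ 0 ∧ v (algebraMap P L p) ≠ 1
  · exact Or.inr (over_of_center hx hgenZ hdom hT hwT hwA hvA hvw hnt)
  · left
    intro p hp
    by_contra hne
    exact hnt ⟨p, hp, hne⟩

end Pf72953.Pic
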