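import Mathlib
import Pool.Agent.Lib.Pf72953.Extend
import Pool.Agent.Lib.Pf72953e.GaussE
import Pool.Agent.Lib.Pf72953q.KeyW

/-!
MODULE Pf72953q.ExtW: over every prime divisor `T` there is a prime divisor of `W`.

PROOF of `exists_over`: a discrete valuation `T` of `P` extends to every finitely generated extension `L` (values in `ℤᵐ⁰`).  Let `s₁, …, s_r` be a transcendence basis of `L/P`.  By induction it is enough to extend to a simple transcendental extension (the Gauss valuation: `GaussAux.gv`, a valuation of `P[X]` extending `T`, in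
Pf72953e/GaussE.lean; extend it to the fraction field: `Valuation.extendToLocalization` or as in `exists_gaussE'`) and to a finite extension (`exists_extension`, Pf72953/Extend.lean; `w a ≤ 1 ↔ v a ≤ 1`).  (For instance: `IntermediateField.adjoin P (range s) ≃ FractionRing (MvPolynomial (Fin r) P)`, or induction on `r` for all `P`, `L`: the intermediate
field `P(s₁) ≃ RatFunc P`, `RatFunc.algEquivOfTranscendental`, see `exists_pole` in Pf72953e/ExtE.lean.)
PROOF of `exists_wprime_over`.  `T` is not trivial on `P` (`hT.div.nontrivial`): there is `0 ≠ p ∈ P` with `T p < 1`.  Let `w` be over `T` (`exists_over`); `w` is trivial on `B`, so `W.cover` gives `j` with `w ≤ 1` on `W.A j`.  `exists_wprime` (KeyW.lean) for `f = (algebraMap P L p)⁻¹`, `1 < w f`: `v`, `1 < v f`, so `v` is not trivial on `P`, so `Over T v`.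
-/

set_option autoImplicit false
set_option linter.style.haveILetI false
set_option linter.unusedSectionVars false

open scoped WithZero
open Pf72953 Pf72953.Mov Pf72953.Up Pf72953.Br

namespace Pf72953.Pic

namespace ExtWAux

/-- the values `1` of the smaller field are values `1` of the larger field -/
theorem over_eq_one {P L : Type*} [Field P] [Field L] [Algebra P L] {T : Valuation P ℤᵐ⁰}
    {w : Valuation L ℤᵐ⁰} (h : Over T w) {p : P} (hp : p ≠ 0) :
    w (algebraMap P L p) = 1 ↔ T p = 1 := by
  have hTp : T p ≠ 0 := (Valuation.ne_zero_iff T).mpr hp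
  have hwp : w (algebraMap P L p) ≠ 0 :=
    (Valuation.ne_zero_iff w).mpr (by simpa using hp)
  have h1 := h p
  have h2 := h p⁻¹
  rw [map_inv₀, map_inv₀, map_inv₀, inv_le_one₀ (zero_lt_iff.2 hwp),
    inv_le_one₀ (zero_lt_iff.2 hTp)] at h2
  constructor
  · intro e
    exact le_antisymm (h1.1 e.le) (h2.1 e.ge)
  · intro e
    exact le_antisymm (h1.2 e.le) (h2.2 e.ge)

/-- extension to a simple extension -/
theorem step {K L : Type*} [Field K] [CharZero K] [Field L] [Algebra K L]
    (v : Valuation K ℤᵐ⁰) (hv : ∃ a : K, a ≠ 0 ∧ v a ≠ 1) (a : L) :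
    ∃ w : Valuation (IntermediateField.adjoin K {a}) ℤᵐ⁰, Over v w := by
  by_cases ha : IsAlgebraic K a
  · haveI : FiniteDimensional K (IntermediateField.adjoin K {a}) :=
      IntermediateField.adjoin.finiteDimensional ha.isIntegral
    obtain ⟨w, hw⟩ := Pf72953.exists_extension (L := IntermediateField.adjoin K {a}) v hv
    exact ⟨w, hw⟩
  · let φ : Polynomial K →+* IntermediateField.adjoin K {a} :=
      (Polynomial.aeval (IntermediateField.AdjoinSimple.gen K a)).toRingHom
    have hcoe : ∀ p : Polynomial K, ((φ p : IntermediateField.adjoin K {a}) : L)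
        = Polynomial.aeval a p := by
      intro p
      change ((Polynomial.aeval (IntermediateField.AdjoinSimple.gen K a) p :
        IntermediateField.adjoin K {a}) : L) = _
      exact IntermediateField.AdjoinSimple.coe_aeval_gen_apply K a p
    have hne : ∀ p : Polynomial K, p ≠ 0 → φ p ≠ 0 := by
      intro p hp h0
      have h1 : Polynomial.aeval a p = 0 := by rw [← hcoe, h0]; rfl
      exact ha ⟨p, hp, h1⟩
    have hφ : Function.Injective φ := by
      rw [injective_iff_map_eq_zero]
      intro p h0
      by_contra hp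
      exact hne p hp h0
    have hfrac : ∀ z : IntermediateField.adjoin K {a},
        ∃ p q : Polynomial K, φ q ≠ 0 ∧ z = φ p / φ q := by
      intro z
      obtain ⟨r, s, hrs⟩ := IntermediateField.mem_adjoin_simple_iff K (z : L) |>.1 z.2
      by_cases hs : s = 0
      · refine ⟨0, 1, by rw [map_one]; exact one_ne_zero, ?_⟩
        rw [map_zero, zero_div]
        apply Subtype.ext
        rw [hrs, hs, map_zero, div_zero]
        rfl
      · refine ⟨r, s, hne s hs, ?_⟩
        apply Subtype.ext
        rw [IntermediateField.coe_div, hcoe, hcoe]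
        exact hrs
    obtain ⟨W, hW⟩ := Fib.exists_ext φ hφ hfrac (Ell.GaussAux.gv v) (by
      intro p hp h0
      exact hp ((Ell.GaussAux.gvf_eq_zero v).1 h0))
    refine ⟨W, fun c => ?_⟩
    have hc : algebraMap K (IntermediateField.adjoin K {a}) c = φ (Polynomial.C c) := by
      apply Subtype.ext
      rw [hcoe, Polynomial.aeval_C]
      rfl
    rw [hc, hW, Ell.GaussAux.gv_C]

end ExtWAux

theorem exists_over {P L : Type*} [Field P] [CharZero P] [Field L] [Algebra P L]
    [Algebra.EssFiniteType P L] (T : Valuation P ℤᵐ⁰) (hT : ∃ p : P, p ≠ 0 ∧ T p ≠ 1) :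
    ∃ w : Valuation L ℤᵐ⁰, Over T w := by
  have key : ∃ w : Valuation (⊤ : IntermediateField P L) ℤᵐ⁰, Over T w := by
    refine IntermediateField.induction_on_adjoin_fg
      (fun K => ∃ w : Valuation K ℤᵐ⁰, Over T w) ?_ ?_ ⊤ (IntermediateField.fg_top P L)
    · refine ⟨T.comap (IntermediateField.botEquiv P L : (⊥ : IntermediateField P L) →+* P),
        fun p => ?_⟩
      have h1 : (IntermediateField.botEquiv P L) (algebraMap P _ p) = p :=
        (IntermediateField.botEquiv P L).commutes p
      rw [Valuation.comap_apply]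
      change T ((IntermediateField.botEquiv P L) (algebraMap P _ p)) ≤ 1 ↔ _
      rw [h1]
    · rintro K x ⟨w, hw⟩
      have hchar : CharZero K := charZero_of_injective_algebraMap (algebraMap P K).injective
      obtain ⟨p, hp, hTp⟩ := hT
      obtain ⟨w', hw'⟩ := ExtWAux.step (K := K) (L := L) w
        ⟨algebraMap P K p, by simpa using hp,
          fun h => hTp ((ExtWAux.over_eq_one hw hp).1 h)⟩ x
      refine ⟨w', fun p => ?_⟩
      rw [← hw p, ← hw' (algebraMap P K p)]
      rfl
  obtain ⟨w, hw⟩ := key
  refine ⟨w.comap ((IntermediateField.topEquiv (F := P) (E := L)).symm : L →+* _),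
    fun p => ?_⟩
  rw [← hw p, Valuation.comap_apply]
  have h1 : (IntermediateField.topEquiv (F := P) (E := L)).symm (algebraMap P L p)
      = algebraMap P _ p := (IntermediateField.topEquiv (F := P) (E := L)).symm.commutes p
  change w ((IntermediateField.topEquiv (F := P) (E := L)).symm (algebraMap P L p)) ≤ 1 ↔ _
  rw [h1]

variable {k B Y Z P L : Type*} [Field k] [CharZero k] [Field B] [CharZero B] [Field Y] [Field Z]
  [Field P] [Field L] [Algebra k B] [Algebra k Y] [Algebra k Z] [Algebra k P] [Algebra k L]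
  [Algebra B Z] [Algebra B P] [Algebra B L] [Algebra Y Z] [Algebra Y P] [Algebra Y L]
  [Algebra Z P] [Algebra Z L] [Algebra P L]
  [IsScalarTower k B Z] [IsScalarTower k B P] [IsScalarTower k B L] [IsScalarTower k Y Z]
  [IsScalarTower k Y P] [IsScalarTower k Y L] [IsScalarTower k Z P] [IsScalarTower k Z L]
  [IsScalarTower k P L] [IsScalarTower B Z P] [IsScalarTower B Z L] [IsScalarTower B P L]
  [IsScalarTower Y Z P] [IsScalarTower Y Z L] [IsScalarTower Y P L] [IsScalarTower Z P L]
  [Algebra.EssFiniteType k B] [Algebra.EssFiniteType k Y] [Algebra.EssFiniteType k Z]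
  [Algebra.EssFiniteType k L] [FiniteDimensional Z P] {M : SmoothModel k Y} {W : SmoothModel B L}

theorem exists_wprime_over
    (hx : ∀ i, IsTranscendenceBasis B (fun a => algebraMap Y Z (M.x i a)))
    (hgenZ : ∀ z : Z, z ∈ IntermediateField.adjoin B (Set.range (algebraMap Y Z)))
    (hdom : Dominates W M) {i : M.I} {T : Valuation P ℤᵐ⁰} (hT : PrimeDiv k M B Z i T) :
    ∃ (j : W.I) (v : Valuation L ℤᵐ⁰), WPrime W j v ∧ Over T v := by
  haveI : Algebra.EssFiniteType P L := Algebra.EssFiniteType.of_comp k P L
  haveI : CharZero P := charZero_of_injective_algebraMap (algebraMap k P).injective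
  obtain ⟨w, hw⟩ := exists_over (L := L) T hT.div.nontrivial
  obtain ⟨p, hp0, hp⟩ : ∃ p : P, p ≠ 0 ∧ T p < 1 := by
    obtain ⟨a, ha0, ha⟩ := hT.div.nontrivial
    rcases lt_or_gt_of_ne ha with h | h
    · exact ⟨a, ha0, h⟩
    · exact ⟨a⁻¹, inv_ne_zero ha0, by rw [map_inv₀]; exact inv_lt_one_of_one_lt₀ h⟩
  obtain ⟨j, hj⟩ := W.cover w (by
    intro b hb
    have hb' : algebraMap B P b ≠ 0 := by simpa using hb
    rw [IsScalarTower.algebraMap_apply B P L]
    exact (ExtWAux.over_eq_one hw hb').2 (hT.triv b hb))
  have hf : 1 < w (algebraMap P L p)⁻¹ := by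
    rw [← map_inv₀, ← not_le, hw, not_le, map_inv₀]
    exact (one_lt_inv₀ (zero_lt_iff.2 ((Valuation.ne_zero_iff T).mpr hp0))).2 hp
  obtain ⟨v, hv, hvf, hv'⟩ := exists_wprime hx hgenZ hdom hT hw hj hf
  refine ⟨j, v, hv, ?_⟩
  rcases hv' with h | h
  · rw [map_inv₀, h p hp0, inv_one] at hvf
    exact absurd hvf (lt_irrefl _)
  · exact h

end Pf72953.Pic
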