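import Mathlib
import Pool.Agent.Lib.Pf72953b.CenterEq
import Pool.Agent.Lib.Pf72953b.CenterMin
import Pool.Agent.Lib.Pf72953q.QDefs

/-!
MODULE Pf72953q.FinW: a function has a zero or a pole at only finitely many prime divisors of a chart.

PROOF.  `f = a / b`, `a, b ∈ W.A j` nonzero (`W.frac`).  If `v f ≠ 1` then `v a < 1` or `v b < 1`, so `center (W.A j) v` is a minimal prime over `(a)` or over `(b)` (`center_minimal`, `chart_of_model W j`); there are finitely many (`Ideal.finite_minimalPrimes_of_isNoetherianRing`, `Chart.isNoetherian`).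
Choose a prime divisor `v` for every centre which occurs, enumerate them; two with the same centre have the same valuation ring (`center_eq`).  (See the proof of `exists_finite`, Pf72953b/FinBad.lean.)
-/

set_option autoImplicit false
set_option linter.style.haveILetI false
set_option linter.unusedSectionVars false

open scoped WithZero
open Pf72953 Pf72953.Mov Pf72953.Up Pf72953.Br

namespace Pf72953.Pic

theorem finite_wprime {B L : Type*} [Field B] [CharZero B] [Field L] [Algebra B L]
    [Algebra.EssFiniteType B L] (W : SmoothModel B L) (j : W.I) {f : L} (hf : f ≠ 0) :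
    ∃ (m : ℕ) (V : Fin m → Valuation L ℤᵐ⁰), (∀ l, WPrime W j (V l)) ∧
      ∀ v : Valuation L ℤᵐ⁰, WPrime W j v → v f ≠ 1 → ∃ l, ∀ z, v z ≤ 1 ↔ V l z ≤ 1 := by
  classical
  have hch : Chart (W.tb j) (W.A j) := chart_of_model W j
  haveI := hch.isNoetherian
  obtain ⟨a, ha, b, hb, hb0, hfab⟩ := W.frac j f
  have ha0 : a ≠ 0 := by
    rintro rfl
    exact hf (by rw [hfab, zero_div])
  -- the centres
  let C : Set (Ideal (W.A j)) :=
    {p | ∃ (v : Valuation L ℤᵐ⁰) (hv : WPrime W j v), v f ≠ 1 ∧
      p = center (W.A j) v hv.le_one}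
  have hfin : C.Finite := by
    refine ((Ideal.finite_minimalPrimes_of_isNoetherianRing (W.A j)
      (Ideal.span {(⟨a, ha⟩ : W.A j)})).union
      (Ideal.finite_minimalPrimes_of_isNoetherianRing (W.A j)
        (Ideal.span {(⟨b, hb⟩ : W.A j)}))).subset ?_
    rintro p ⟨v, hv, hvf, rfl⟩
    by_cases hva : v a = 1
    · right
      have hvb : v b ≠ 1 := by
        intro hvb
        exact hvf (by rw [hfab, map_div₀, hva, hvb, div_one])
      exact center_minimal hch hv.div hv.reg hv.le_one
        (fun h => hb0 (congrArg Subtype.val h)) (lt_of_le_of_ne (hv.le_one b hb) hvb)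
    · left
      exact center_minimal hch hv.div hv.reg hv.le_one
        (fun h => ha0 (congrArg Subtype.val h)) (lt_of_le_of_ne (hv.le_one a ha) hva)
  haveI : Finite C := hfin.to_subtype
  let e := Finite.equivFin C
  let V : C → Valuation L ℤᵐ⁰ := fun s => s.2.choose
  have hV : ∀ s : C, WPrime W j (V s) := fun s => s.2.choose_spec.choose
  refine ⟨Nat.card C, fun l => V (e.symm l), fun l => hV (e.symm l), fun v hv hvf => ?_⟩
  let s : C := ⟨center (W.A j) v hv.le_one, v, hv, hvf, rfl⟩
  refine ⟨e s, fun z => ?_⟩
  simp only [Equiv.symm_apply_apply]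
  have heq : center (W.A j) v hv.le_one = center (W.A j) (V s) (hV s).le_one :=
    s.2.choose_spec.choose_spec.2
  exact center_eq hch hv.div (hV s).div hv.reg (hV s).reg hv.le_one (hV s).le_one heq z

end Pf72953.Pic
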