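import Mathlib
import Pool.Agent.Lib.Pf72953c.EasyAdd
import Pool.Agent.Lib.Pf72953p.RegOnP
import Pool.Agent.Lib.Pf72953q.QDefs

/-!
MODULE Pf72953q.FormG: a regular form on the generic fibre, if its Kodaira dimension is not `-∞`; the easy case `κ = -∞`.

PROOF of `exists_regOn`.  `kodairaDim P L ≠ ⊥` gives `KodairaGE P L 0` (`kodairaDim` is a supremum), so by `KodairaGE.exists_coord` (Pf72953/Core.lean; `s` reindexed by `Fin r ≃ Fin (dimension P L)`, `card_eq_of_isTranscendenceBasis`, `WReg.reindex`) there are `e ≥ 1` and `0 ≠ G ∈ WReg P s e`.  Then `RegOn k Z s e G`: let `w` be divisorial on `L/k`, trivial on `Z`; `w` is trivial on `P`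
(`val_eq_one_of_isIntegral`), `dd` regular derivations over `Z`; they are derivations over `P` (they vanish on `P`: `der_eq_zero_of_isAlgebraic`, `derOver`, Pf72953m/Over.lean).  Apply `regOn_of_wreg` (Pf72953p/RegOnP.lean, with `Z := P`).
`kod_bot` is proved (easy addition).
-/

set_option autoImplicit false
set_option linter.style.haveILetI false
set_option linter.unusedSectionVars false

open scoped WithZero
open Pf72953 Pf72953.Mov Pf72953.Up Pf72953.Br Pf72953.Can

namespace Pf72953.Pic

theorem exists_regOn {k Z P L : Type*} [Field k] [CharZero k] [Field Z] [CharZero Z] [Field P]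
    [CharZero P] [Field L] [Algebra k Z] [Algebra k P] [Algebra k L] [Algebra Z P] [Algebra Z L]
    [Algebra P L] [IsScalarTower k Z P] [IsScalarTower k Z L] [IsScalarTower k P L]
    [IsScalarTower Z P L] [Algebra.EssFiniteType k Z] [Algebra.EssFiniteType k L]
    [FiniteDimensional Z P] {r : ℕ} {s : Fin r → L} (hsP : IsTranscendenceBasis P s)
    (hκ : kodairaDim P L ≠ ⊥) : ∃ (e : ℕ) (G : L), 1 ≤ e ∧ G ≠ 0 ∧ RegOn k Z s e G := by
  haveI : Algebra.EssFiniteType Z P := inferInstance
  haveI : Algebra.EssFiniteType k P := Algebra.EssFiniteType.comp k Z P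
  haveI : Algebra.EssFiniteType P L := Algebra.EssFiniteType.of_comp k P L
  have hK : ∃ c : ℕ, KodairaGE P L c := by
    by_contra hcon
    push Not at hcon
    apply hκ
    rw [kodairaDim]
    simp [hcon]
  obtain ⟨c, hc⟩ := hK
  have hcard : Fintype.card (Fin r) = dimension P L := card_eq_of_isTranscendenceBasis hsP
  rw [Fintype.card_fin] at hcard
  let eq : Fin (dimension P L) ≃ Fin r := finCongr hcard.symm
  have hsb : IsTranscendenceBasis P (s ∘ eq) := (isTranscendenceBasis_equiv eq).mpr hsP
  obtain ⟨m, hm, f₀, hf₀, hne, -⟩ := hc.exists_coord hsb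
  have hf₁ : f₀ ∈ WReg P s m := by
    have h1 := WReg.reindex hf₀ eq.symm
    have h2 : (s ∘ eq) ∘ eq.symm = s := by funext i; simp
    rwa [h2] at h1
  have hreg : RegOn k P s m f₀ := Pow.regOn_of_wreg hsP hf₁
  refine ⟨m, f₀, hm, hne, ?_⟩
  intro w hw htriv d hd
  have halg : ∀ p : P, IsAlgebraic Z p := fun p => Algebra.IsAlgebraic.isAlgebraic p
  have htriv' : ∀ p : P, p ≠ 0 → w (algebraMap P L p) = 1 := by
    intro p hp
    refine val_eq_one_of_isIntegral htriv ?_ ((halg p).isIntegral.map (IsScalarTower.toAlgHom Z P L))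
    exact fun h => hp ((algebraMap P L).injective (by rw [h, map_zero]))
  have hD : ∀ (a : Fin r) (p : P), d a (algebraMap P L p) = 0 := fun a p =>
    der_eq_zero_of_isAlgebraic (d a) ((halg p).algebraMap)
  exact hreg w hw htriv' (fun a => derOver (d a) (hD a)) (fun a z hz => hd a z hz)

theorem kod_bot {k B E P L : Type*} [Field k] [CharZero k] [Field B] [CharZero B] [Field E]
    [Field P] [CharZero P] [Field L] [Algebra k B] [Algebra k E] [Algebra k P] [Algebra k L]
    [Algebra B E] [Algebra B P] [Algebra B L] [Algebra E L] [Algebra P L] [IsScalarTower k B E]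
    [IsScalarTower k B P] [IsScalarTower k B L] [IsScalarTower k E L] [IsScalarTower k P L]
    [IsScalarTower B E L] [IsScalarTower B P L] [Algebra.EssFiniteType k B]
    [Algebra.EssFiniteType k P] [Algebra.EssFiniteType k E] [FiniteDimensional E L]
    (hκ : kodairaDim P L = ⊥) : kodairaDim B E = ⊥ := by
  haveI : Algebra.EssFiniteType B E := Algebra.EssFiniteType.of_comp k B E
  haveI : Algebra.EssFiniteType B P := Algebra.EssFiniteType.of_comp k B P
  have h := easy_add (B := B) (B' := P) (E := E) (L := L)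
  rw [hκ, WithBot.add_bot] at h
  exact le_bot_iff.mp h

end Pf72953.Pic
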