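import Mathlib
import Pool.Agent.Lib.Pf72953q.FinW

/-!
MODULE Pf72953q.OrdW: the smallest order of a function along the prime divisors of `W` over `T`.

PROOF.  Two valuations with the same valuation ring: `v a ≤ v b ↔ v' a ≤ v' b` (apply to `a / b`), so `v (φ j) ^ N ≤ v t ^ a ↔ v' (φ j) ^ N ≤ v' t ^ a`, and the same with `=`, `<`.
`exists_ord`.  Let `t` be a uniformizer of `T` (`exists_unif`); all uniformizers of `T` have the same `v`-value for `v` over `T`.  For `v` over `T`: `0 < v t < 1`.  By `finite_wprime` (FinW.lean) for `f = algebraMap P L t` and each `j` (`W.finite`) there are finitely many pairs `(j_l, V_l)`, `V_l` a prime divisor of the chart `j_l`, such that every prime divisor `v`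
of a chart `j` over `T` has the valuation ring of a `V_l` with `j_l = j`.  Keep the `l` with `Over T (V_l)`; there is one by `hne`.  Write `V_l (φ j_l) = exp (-p_l)`, `V_l t = exp (-q_l)`, `q_l ≥ 1` (`WithZero.exp`, `WithZero.log`).  Let `l₀` minimize the rational number `p_l / q_l`; `N = q_{l₀}`, `a = p_{l₀}`: `V_l (φ j_l) ^ N = exp (-p_l q_{l₀}) ≤ exp (-q_l p_{l₀}) = V_l t ^ a`
with equality for `l = l₀`.
`finite_supp`.  For each `j` let `V_{j,l}` be the list of `finite_wprime` for `φ j`; the list of all `(V_{j,l}).comap (algebraMap P L)`.  Let `T` be as in the statement, not equivalent to a member of the list, and let `v` be a prime divisor of the chart `j` over `T`.  If `v (φ j) ≠ 1` then `v` has the valuation ring of some `V_{j,l}`, so `T p ≤ 1 ↔ v p ≤ 1 ↔ V_{j,l} p ≤ 1`, contradiction.  So `v (φ j) = 1`.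
-/

set_option autoImplicit false
set_option linter.style.haveILetI false
set_option linter.unusedSectionVars false

open scoped WithZero
open Pf72953 Pf72953.Mov Pf72953.Up Pf72953.Br

namespace Pf72953.Pic

namespace OrdWAux

/-- comparison of powers in terms of the valuation ring -/
theorem pow_le_iff {K : Type*} [Field K] (v : Valuation K ℤᵐ⁰) {f t : K} (ht : t ≠ 0) (N : ℕ)
    (a : ℤ) : v f ^ N ≤ v t ^ a ↔ v (f ^ N / t ^ a) ≤ 1 := by
  have h0 : 0 < v t ^ a := by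
    have h1 : v t ≠ 0 := (Valuation.ne_zero_iff v).mpr ht
    exact zero_lt_iff.2 (zpow_ne_zero _ h1)
  rw [map_div₀, map_pow, map_zpow₀, div_le_one₀ h0]

theorem eq_one_iff {K : Type*} [Field K] {v v' : Valuation K ℤᵐ⁰} (h : ∀ z, v z ≤ 1 ↔ v' z ≤ 1)
    {z : K} (hz : z ≠ 0) (h1 : v z = 1) : v' z = 1 := by
  apply le_antisymm
  · exact (h z).1 h1.le
  · have h2 : v z⁻¹ = 1 := by rw [map_inv₀, h1, inv_one]
    have h3 := (h z⁻¹).1 h2.le
    rw [map_inv₀] at h3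
    have h4 : v' z ≠ 0 := (Valuation.ne_zero_iff v').mpr hz
    exact (inv_le_one₀ (zero_lt_iff.2 h4)).1 h3

theorem pow_le_congr {K : Type*} [Field K] {v v' : Valuation K ℤᵐ⁰}
    (h : ∀ z, v z ≤ 1 ↔ v' z ≤ 1) {f t : K} (ht : t ≠ 0) (N : ℕ) (a : ℤ) :
    v f ^ N ≤ v t ^ a ↔ v' f ^ N ≤ v' t ^ a := by
  rw [pow_le_iff v ht, pow_le_iff v' ht]
  exact h _

theorem lt_one_iff {K : Type*} [Field K] {v v' : Valuation K ℤᵐ⁰}
    (h : ∀ z, v z ≤ 1 ↔ v' z ≤ 1) {z : K} (h1 : v z < 1) : v' z < 1 := by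
  rcases eq_or_ne z 0 with rfl | hz
  · simp
  apply lt_of_le_of_ne ((h z).1 h1.le)
  intro h2
  exact h1.ne (eq_one_iff (fun z => (h z).symm) hz h2)

theorem unif_congr {K : Type*} [Field K] {v v' : Valuation K ℤᵐ⁰}
    (h : ∀ z, v z ≤ 1 ↔ v' z ≤ 1) {t : K} (ht : IsUnif v t) : IsUnif v' t := by
  refine ⟨ht.ne_zero, lt_one_iff h ht.lt_one, fun a ha => ?_⟩
  have h1 := ht.le a (lt_one_iff (fun z => (h z).symm) ha)
  have h2 := (pow_le_congr h ht.ne_zero (f := a) 1 1).1 (by simpa using h1)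
  simpa using h2

section ov

variable {P L : Type*} [Field P] [Field L] [Algebra P L]

theorem over_unif_eq {T : Valuation P ℤᵐ⁰} {v : Valuation L ℤᵐ⁰} (hv : Over T v) {t t' : P}
    (ht : IsUnif T t) (ht' : IsUnif T t') :
    v (algebraMap P L t) = v (algebraMap P L t') := by
  have key : ∀ {s s' : P}, IsUnif T s → IsUnif T s' →
      v (algebraMap P L s) ≤ v (algebraMap P L s') := by
    intro s s' hs hs'
    have h1 := hs'.le s hs.lt_one
    have h0 : 0 < T s' := zero_lt_iff.2 ((Valuation.ne_zero_iff T).mpr hs'.ne_zero)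
    have h2 : T (s / s') ≤ 1 := by rw [map_div₀]; exact (div_le_one₀ h0).2 h1
    have h3 := (hv (s / s')).2 h2
    have h4 : algebraMap P L s' ≠ 0 := (map_ne_zero _).2 hs'.ne_zero
    have h5 : 0 < v (algebraMap P L s') := zero_lt_iff.2 ((Valuation.ne_zero_iff v).mpr h4)
    rw [map_div₀, map_div₀] at h3
    exact (div_le_one₀ h5).1 h3
  exact le_antisymm (key ht ht') (key ht' ht)

theorem over_lt_one {T : Valuation P ℤᵐ⁰} {v : Valuation L ℤᵐ⁰} (hv : Over T v) {t : P}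
    (ht : IsUnif T t) : v (algebraMap P L t) < 1 := by
  refine lt_of_le_of_ne ((hv t).2 ht.lt_one.le) ?_
  intro h1
  have h2 : v (algebraMap P L t⁻¹) ≤ 1 := by rw [map_inv₀, map_inv₀, h1, inv_one]
  have h3 := (hv t⁻¹).1 h2
  rw [map_inv₀] at h3
  have h0 : 0 < T t := zero_lt_iff.2 ((Valuation.ne_zero_iff T).mpr ht.ne_zero)
  exact absurd ht.lt_one (not_lt.2 ((inv_le_one₀ h0).1 h3))

theorem over_congr {T : Valuation P ℤᵐ⁰} {v v' : Valuation L ℤᵐ⁰} (hv : Over T v)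
    (h : ∀ z, v z ≤ 1 ↔ v' z ≤ 1) : Over T v' :=
  fun p => (h _).symm.trans (hv p)

end ov

end OrdWAux

open OrdWAux

variable {B P L : Type*} [Field B] [CharZero B] [Field P] [Field L] [Algebra B L] [Algebra P L]
  [Algebra.EssFiniteType B L] {W : SmoothModel B L}

theorem exists_ord {φ : W.I → L} (hφ : ∀ j, φ j ≠ 0) {T : Valuation P ℤᵐ⁰}
    (hT : ∃ p : P, p ≠ 0 ∧ T p ≠ 1)
    (hne : ∃ (j : W.I) (v : Valuation L ℤᵐ⁰), WPrime W j v ∧ Over T v) :
    ∃ (N : ℕ) (a : ℤ), 1 ≤ N ∧ OrdAt W φ T N a := by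
  classical
  obtain ⟨t, ht⟩ := exists_unif T hT
  have htL : algebraMap P L t ≠ 0 := (map_ne_zero _).2 ht.ne_zero
  choose m V hVW hV using fun j => finite_wprime W j htL
  haveI := W.finite
  let S : Type := {x : Σ j, Fin (m j) // Over T (V x.1 x.2)}
  have hS : ∀ (j : W.I) (v : Valuation L ℤᵐ⁰), WPrime W j v → Over T v →
      ∃ s : S, s.1.1 = j ∧ ∀ z, v z ≤ 1 ↔ V s.1.1 s.1.2 z ≤ 1 := by
    intro j v hv hTv
    obtain ⟨l, hl⟩ := hV j v hv (over_lt_one hTv ht).ne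
    exact ⟨⟨⟨j, l⟩, over_congr hTv hl⟩, rfl, hl⟩
  haveI : Nonempty S := by
    obtain ⟨j, v, hv, hTv⟩ := hne
    obtain ⟨s, -⟩ := hS j v hv hTv
    exact ⟨s⟩
  haveI : Finite S := Subtype.finite
  let p : S → ℤ := fun s => -WithZero.log (V s.1.1 s.1.2 (φ s.1.1))
  let q : S → ℤ := fun s => -WithZero.log (V s.1.1 s.1.2 (algebraMap P L t))
  have hp : ∀ s : S, V s.1.1 s.1.2 (φ s.1.1) = WithZero.exp (-p s) := by
    intro s
    show _ = WithZero.exp (- -WithZero.log _)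
    rw [neg_neg, WithZero.exp_log ((Valuation.ne_zero_iff _).mpr (hφ _))]
  have hq : ∀ s : S, V s.1.1 s.1.2 (algebraMap P L t) = WithZero.exp (-q s) := by
    intro s
    show _ = WithZero.exp (- -WithZero.log _)
    rw [neg_neg, WithZero.exp_log ((Valuation.ne_zero_iff _).mpr htL)]
  have hq1 : ∀ s : S, 1 ≤ q s := by
    intro s
    have h1 := over_lt_one s.2 ht
    rw [hq, ← WithZero.exp_zero, WithZero.exp_lt_exp] at h1
    omega
  obtain ⟨s₀, hs₀⟩ := Finite.exists_min (fun s : S => (p s : ℚ) / (q s : ℚ))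
  have hcmp : ∀ s, q s * p s₀ ≤ p s * q s₀ := by
    intro s
    have h1 := hs₀ s
    have h2 : (0 : ℚ) < q s := by exact_mod_cast (lt_of_lt_of_le zero_lt_one (hq1 s))
    have h3 : (0 : ℚ) < q s₀ := by exact_mod_cast (lt_of_lt_of_le zero_lt_one (hq1 s₀))
    rw [div_le_div_iff₀ h3 h2] at h1
    have h4 : p s₀ * q s ≤ p s * q s₀ := by exact_mod_cast h1
    linarith [mul_comm (p s₀) (q s)]
  obtain ⟨N, hN⟩ : ∃ N : ℕ, (N : ℤ) = q s₀ :=
    ⟨(q s₀).toNat, Int.toNat_of_nonneg (by have := hq1 s₀; omega)⟩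
  have e1 : ∀ s : S, V s.1.1 s.1.2 (φ s.1.1) ^ N = WithZero.exp (-(p s * q s₀)) := by
    intro s
    rw [hp, ← WithZero.exp_nsmul]
    congr 1
    rw [nsmul_eq_mul, ← hN]
    ring
  have e2 : ∀ s : S, V s.1.1 s.1.2 (algebraMap P L t) ^ (p s₀) =
      WithZero.exp (-(q s * p s₀)) := by
    intro s
    rw [hq, ← WithZero.exp_zsmul]
    congr 1
    rw [zsmul_eq_mul]
    push_cast
    ring
  refine ⟨N, p s₀, by have := hq1 s₀; omega, ⟨?_, ?_⟩⟩
  · intro j v hv hTv t' ht'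
    obtain ⟨s, rfl, hs⟩ := hS j v hv hTv
    rw [over_unif_eq hTv ht' ht, pow_le_congr hs htL, e1, e2, WithZero.exp_le_exp]
    have := hcmp s
    linarith
  · refine ⟨s₀.1.1, V s₀.1.1 s₀.1.2, hVW _ _, s₀.2, ?_⟩
    intro t' ht'
    rw [over_unif_eq s₀.2 ht' ht, e1, e2]
    congr 1
    ring

theorem finite_supp {φ : W.I → L} (hφ : ∀ j, φ j ≠ 0) :
    ∃ (m : ℕ) (Ts : Fin m → Valuation P ℤᵐ⁰), ∀ T : Valuation P ℤᵐ⁰,
      (∃ (j : W.I) (v : Valuation L ℤᵐ⁰), WPrime W j v ∧ Over T v) →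
      (∀ l, ¬ ∀ p, T p ≤ 1 ↔ Ts l p ≤ 1) → OrdAt W φ T 1 0 := by
  classical
  choose m V hVW hV using fun j => finite_wprime W j (hφ j)
  haveI := W.finite
  let e := Finite.equivFin (Σ j, Fin (m j))
  let F : (Σ j, Fin (m j)) → Valuation L ℤᵐ⁰ := fun s => V s.1 s.2
  refine ⟨Nat.card (Σ j, Fin (m j)), fun l => (F (e.symm l)).comap (algebraMap P L), ?_⟩
  intro T hne hT
  have key : ∀ (j : W.I) (v : Valuation L ℤᵐ⁰), WPrime W j v → Over T v → v (φ j) = 1 := by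
    intro j v hv hTv
    by_contra h1
    obtain ⟨l, hl⟩ := hV j v hv h1
    apply hT (e ⟨j, l⟩)
    intro p
    show T p ≤ 1 ↔ F (e.symm (e ⟨j, l⟩)) (algebraMap P L p) ≤ 1
    rw [Equiv.symm_apply_apply]
    exact (hTv p).symm.trans (hl _)
  refine ⟨?_, ?_⟩
  · intro j v hv hTv t _
    rw [key j v hv hTv, one_pow, zpow_zero]
  · obtain ⟨j, v, hv, hTv⟩ := hne
    refine ⟨j, v, hv, hTv, ?_⟩
    intro t _
    rw [key j v hv hTv, one_pow, zpow_zero]

theorem OrdAt.congr {φ : W.I → L} {T T' : Valuation P ℤᵐ⁰} (hTT' : ∀ p, T' p ≤ 1 ↔ T p ≤ 1)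
    {N : ℕ} {a : ℤ} (h : OrdAt W φ T N a) : OrdAt W φ T' N a := by
  refine ⟨?_, ?_⟩
  · intro j v hv hTv t ht
    exact h.le j v hv (fun p => (hTv p).trans (hTT' p)) t (unif_congr hTT' ht)
  · obtain ⟨j, v, hv, hTv, h1⟩ := h.eq
    exact ⟨j, v, hv, fun p => (hTv p).trans (hTT' p).symm, fun t ht =>
      h1 t (unif_congr hTT' ht)⟩

theorem OrdAt.congr_fun {φ φ' : W.I → L} {T : Valuation P ℤᵐ⁰}
    (hφ : ∀ (j : W.I) (v : Valuation L ℤᵐ⁰), Over T v → v (φ j) = v (φ' j)) {N : ℕ} {a : ℤ}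
    (h : OrdAt W φ T N a) : OrdAt W φ' T N a := by
  refine ⟨?_, ?_⟩
  · intro j v hv hTv t ht
    rw [← hφ j v hTv]
    exact h.le j v hv hTv t ht
  · obtain ⟨j, v, hv, hTv, h1⟩ := h.eq
    refine ⟨j, v, hv, hTv, fun t ht => ?_⟩
    rw [← hφ j v hTv]
    exact h1 t ht

theorem OrdAt.mul {φ : W.I → L} {T : Valuation P ℤᵐ⁰} {N : ℕ} {a : ℤ} (h : OrdAt W φ T N a)
    (c : ℕ) : OrdAt W φ T (N * c) (a * c) := by
  refine ⟨?_, ?_⟩
  · intro j v hv hTv t ht
    rw [pow_mul, zpow_mul, zpow_natCast]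
    exact pow_le_pow_left₀ zero_le (h.le j v hv hTv t ht) c
  · obtain ⟨j, v, hv, hTv, h1⟩ := h.eq
    refine ⟨j, v, hv, hTv, fun t ht => ?_⟩
    rw [pow_mul, zpow_mul, zpow_natCast, h1 t ht]

end Pf72953.Pic
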