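import Mathlib
import Pool.Agent.Lib.Pf72953c.RegOf
import Pool.Agent.Lib.Pf72953c.ConstC
import Pool.Agent.Lib.Pf72953q.QDefs

/-!
MODULE Pf72953q.RegX: a regular form on the generic fibre, at the valuations which are trivial on `Z`.

PROOF of `vol_of_regOn`.  This is case 1 of the proof of `regular_of_log` (Pf72953c/RegOf.lean), without the factor `gen_A`.
-/

set_option autoImplicit false
set_option linter.style.haveILetI false
set_option linter.unusedSectionVars false

open scoped WithZero
open Pf72953 Pf72953.Mov Pf72953.Up Pf72953.Br Pf72953.Can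

namespace Pf72953.Pic

variable {k B Y Z P L : Type*} [Field k] [CharZero k] [Field B] [CharZero B] [Field Y] [Field Z]
  [Field P] [Field L] [Algebra k B] [Algebra k Y] [Algebra k Z] [Algebra k P] [Algebra k L]
  [Algebra B Z] [Algebra B P] [Algebra B L] [Algebra Y Z] [Algebra Y P] [Algebra Y L]
  [Algebra Z P] [Algebra Z L] [Algebra P L]
  [IsScalarTower k B Z] [IsScalarTower k B P] [IsScalarTower k B L] [IsScalarTower k Y Z]
  [IsScalarTower k Y P] [IsScalarTower k Y L] [IsScalarTower k Z P] [IsScalarTower k Z L]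
  [IsScalarTower k P L] [IsScalarTower B Z P] [IsScalarTower B Z L] [IsScalarTower B P L]
  [IsScalarTower Y Z P] [IsScalarTower Y Z L] [IsScalarTower Y P L] [IsScalarTower Z P L]
  [Algebra.EssFiniteType k B] [Algebra.EssFiniteType k Y] [Algebra.EssFiniteType k Z]
  [Algebra.EssFiniteType k L] [FiniteDimensional Z P] {M : SmoothModel k Y} {W : SmoothModel B L}

theorem vol_of_regOn (hx : ∀ i, IsTranscendenceBasis B (fun a => algebraMap Y Z (M.x i a)))
    {r : ℕ} {s : Fin r → L} (hs : IsTranscendenceBasis Z s) {e : ℕ} {G : L}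
    (hX : RegOn k Z s e G) (i : M.I) {w : Valuation L ℤᵐ⁰} (hw : IsDivisorial k L w)
    (htriv : ∀ z : Z, z ≠ 0 → w (algebraMap Z L z) = 1)
    (d : Fin (dimension k Y) ⊕ Fin r → Derivation B L L) (hd : ∀ a z, w z ≤ 1 → w (d a z) ≤ 1) :
    w (G * vol i s d ^ e) ≤ 1 := by
  classical
  haveI : Algebra.EssFiniteType B L := Algebra.EssFiniteType.of_comp k B L
  haveI : Algebra.EssFiniteType Z L := Algebra.EssFiniteType.of_comp k Z L
  haveI : CharZero Z := charZero_of_injective_algebraMap (algebraMap k Z).injective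
  have htrivB : ∀ b : B, b ≠ 0 → w (algebraMap B L b) = 1 := by
    intro b hb
    rw [IsScalarTower.algebraMap_apply B Z L]
    exact htriv _ (by simpa using hb)
  have hyB : IsTranscendenceBasis B (fun a => algebraMap Y Z (M.x i a)) := hx i
  have hξB := tbL (L := L) (hx i) hs
  have hwB : IsDivisorial B L w := IsDivisorial.over hw htrivB
  have hcardB : Fintype.card (Fin (dimension k Y) ⊕ Fin r) = dimension B L :=
    card_eq_of_isTranscendenceBasis hξB
  have hYL : ∀ y : Y, algebraMap Y L y = algebraMap Z L (algebraMap Y Z y) := fun y =>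
    IsScalarTower.algebraMap_apply Y Z L y
  have hwZ : IsDivisorial Z L w := IsDivisorial.over hw htriv
  have hcardZ : Fintype.card (Fin r) = dimension Z L := card_eq_of_isTranscendenceBasis hs
  obtain ⟨c₁, t, ht, hc₁⟩ := hwZ.exists_adapted hcardZ
  have hreg₁ := hc₁.regBasis hcardZ ht
  have hcB := Fib.Adapted_rel (k := B) hyB.1 hc₁
  have hregB := hcB.regBasis hcardB ht
  have h1 := det_regDer_le hregB d hd (Sum.elim (fun c => algebraMap Y L (M.x i c)) s)
  have h2 : jac hregB.tb (Sum.elim (fun c => algebraMap Y L (M.x i c)) s) =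
      jac hreg₁.tb s := by
    have h3 := Fib.jac_rel hyB hreg₁.tb hregB.tb (fun j => algebraMap Y Z (M.x i j)) s
    rw [jac_self, map_one, one_mul] at h3
    rw [← h3]
    congr 1
    funext j
    rcases j with j | j
    · exact hYL _
    · rfl
  rw [h2] at h1
  have h4 := hX w hw htriv (fun a => pd hreg₁.tb a) (fun a z hz => hreg₁.der a z hz)
  have h5 : Matrix.det (Matrix.of fun a b => pd hreg₁.tb a (s b)) = jac hreg₁.tb s :=
    (jac_eq_det hreg₁.tb s).symm
  rw [h5, map_mul, map_pow] at h4
  rw [map_mul, map_pow]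
  refine le_trans ?_ h4
  exact mul_le_mul' le_rfl (pow_le_pow_left' h1 e)

end Pf72953.Pic
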