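import Mathlib
import Pool.Agent.Lib.Pf72953q.QDefs

/-!
MODULE Pf72953q.RigidSum: rigidity of the Picard group for divisors with several components; representatives.

PROOF of `rigid_sum`.  `hR` gives `M'` and `N_l ≥ 1`, `A_l`, `h_l` for `T₀ = Ts l`.  Let `N = ∏ l, N_l`, `c_l = a_l * ∏ l' ∈ univ.erase l, N_l'`, `h = ∏ l, h_l ^ c_l`, `A` the line bundle with `gen i = ∏ l, (A_l).gen i ^ c_l` (`compat`: `map_prod`, `map_zpow₀`).
For `T` on the chart `i` equivalent to `Ts l`: it is not equivalent to `Ts l'`, `l' ≠ l` (`hne`), so `T (h * gen) = ∏ l', (T (h_l' * gen_l' i)) ^ c_l' = (T t ^ N_l) ^ c_l = T t ^ (N * a l)`; if `T` is equivalent to no `Ts l` all factors are `1`.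
PROOF of `exists_reps`: induction on `m`.  For the last member `Ts (Fin.last m)`: if there is `T` with `Q T`, equivalent to it, and not equivalent to a member of the list `Ts'` found for the first `m` members, append `T` to `Ts'`; otherwise keep `Ts'`.
-/

set_option autoImplicit false
set_option linter.style.haveILetI false
set_option linter.unusedSectionVars false

open scoped WithZero
open Pf72953 Pf72953.Mov Pf72953.Up Pf72953.Br

namespace Pf72953.Pic

theorem exists_reps {P : Type*} [Field P] (Q : Valuation P ℤᵐ⁰ → Prop) {m : ℕ}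
    (Ts : Fin m → Valuation P ℤᵐ⁰) :
    ∃ (m' : ℕ) (Ts' : Fin m' → Valuation P ℤᵐ⁰), (∀ l, Q (Ts' l)) ∧
      (∀ l l', l ≠ l' → ¬ ∀ p, Ts' l p ≤ 1 ↔ Ts' l' p ≤ 1) ∧
      ∀ T, Q T → (∃ l, ∀ p, T p ≤ 1 ↔ Ts l p ≤ 1) → ∃ l', ∀ p, T p ≤ 1 ↔ Ts' l' p ≤ 1 := by
  induction m with
  | zero =>
    refine ⟨0, Fin.elim0, fun l => l.elim0, fun l => l.elim0, ?_⟩
    rintro T - ⟨l, -⟩
    exact l.elim0
  | succ m ih =>
    obtain ⟨m', Ts', h1, h2, h3⟩ := ih (fun l => Ts l.castSucc)
    by_cases hc : ∃ T, Q T ∧ (∀ p, T p ≤ 1 ↔ Ts (Fin.last m) p ≤ 1) ∧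
        ∀ l, ¬ ∀ p, T p ≤ 1 ↔ Ts' l p ≤ 1
    · obtain ⟨T, hQ, hT, hn⟩ := hc
      refine ⟨m' + 1, Fin.snoc (α := fun _ => Valuation P ℤᵐ⁰) Ts' T, ?_, ?_, ?_⟩
      · intro l
        refine Fin.lastCases ?_ ?_ l
        · rw [Fin.snoc_last]
          exact hQ
        · intro l
          rw [Fin.snoc_castSucc]
          exact h1 l
      · intro l l'
        refine Fin.lastCases ?_ ?_ l
        · refine Fin.lastCases ?_ ?_ l'
          · intro h
            exact absurd rfl h
          · intro l' _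
            rw [Fin.snoc_castSucc, Fin.snoc_last]
            exact hn l'
        · intro l
          refine Fin.lastCases ?_ ?_ l'
          · intro _ h
            rw [Fin.snoc_castSucc, Fin.snoc_last] at h
            exact hn l (fun p => (h p).symm)
          · intro l' hll
            rw [Fin.snoc_castSucc, Fin.snoc_castSucc]
            exact h2 l l' (fun h => hll (by rw [h]))
      · rintro T' hQ' ⟨l, hl⟩
        revert hl
        refine Fin.lastCases ?_ ?_ l
        · intro hl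
          refine ⟨Fin.last _, fun p => ?_⟩
          rw [Fin.snoc_last, hl p, hT p]
        · intro l hl
          obtain ⟨l', hl'⟩ := h3 T' hQ' ⟨l, hl⟩
          refine ⟨l'.castSucc, fun p => ?_⟩
          rw [Fin.snoc_castSucc]
          exact hl' p
    · refine ⟨m', Ts', h1, h2, ?_⟩
      rintro T' hQ' ⟨l, hl⟩
      revert hl
      refine Fin.lastCases ?_ ?_ l
      · intro hl
        by_contra hcon
        exact hc ⟨T', hQ', hl, fun l hl' => hcon ⟨l, hl'⟩⟩
      · intro l hl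
        exact h3 T' hQ' ⟨l, hl⟩

theorem rigid_sum {k B Y Z P : Type*} [Field k] [Field B] [Field Y] [Field Z] [Field P]
    [Algebra k Y] [Algebra k P] [Algebra B Z] [Algebra B P] [Algebra Y Z] [Algebra Y P]
    [Algebra Z P] {M : SmoothModel k Y} (hR : RigidPic k M B Z P) {m : ℕ}
    (Ts : Fin m → Valuation P ℤᵐ⁰) (hTs : ∀ l, ∃ i, PrimeDiv k M B Z i (Ts l))
    (hne : ∀ l l', l ≠ l' → ¬ ∀ p, Ts l p ≤ 1 ↔ Ts l' p ≤ 1) (a : Fin m → ℤ) :
    ∃ M' : SmoothModel k Y, Refines M' M ∧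
      ∃ (N : ℕ) (A : LineBundle M') (h : P), 1 ≤ N ∧ h ≠ 0 ∧
        ∀ (i : M'.I) (T : Valuation P ℤᵐ⁰), PrimeDiv k M' B Z i T → ∀ t, IsUnif T t →
          (∀ l, (∀ p, T p ≤ 1 ↔ Ts l p ≤ 1) →
            T (h * algebraMap Y P (A.gen i)) = T t ^ ((N : ℤ) * a l)) ∧
          ((∀ l, ¬ ∀ p, T p ≤ 1 ↔ Ts l p ≤ 1) → T (h * algebraMap Y P (A.gen i)) = 1) := by
  classical
  obtain ⟨M', hM', h0⟩ := hR m Ts hTs
  refine ⟨M', hM', ?_⟩
  choose N A h hN hh hA using h0
  let c : Fin m → ℤ := fun l => a l * ∏ l' ∈ Finset.univ.erase l, (N l' : ℤ)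
  have hcN : ∀ l, (N l : ℤ) * c l = ((∏ l, N l : ℕ) : ℤ) * a l := by
    intro l
    have h1 : (∏ l', (N l' : ℤ)) = (N l : ℤ) * ∏ l' ∈ Finset.univ.erase l, (N l' : ℤ) :=
      (Finset.mul_prod_erase Finset.univ (fun l' => (N l' : ℤ)) (Finset.mem_univ l)).symm
    simp only [c]
    push_cast
    rw [h1]
    ring
  let A' : LineBundle M' :=
    { gen := fun i => ∏ l, (A l).gen i ^ c l
      ne := fun i => Finset.prod_ne_zero_iff.mpr fun l _ => zpow_ne_zero _ ((A l).ne i)
      compat := by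
        intro i j v hi hj
        rw [map_prod, map_prod]
        refine Finset.prod_congr rfl fun l _ => ?_
        rw [map_zpow₀, map_zpow₀, (A l).compat i j v hi hj] }
  have hval : ∀ (i : M'.I) (T : Valuation P ℤᵐ⁰),
      T ((∏ l, h l ^ c l) * algebraMap Y P (A'.gen i)) =
        ∏ l, T (h l * algebraMap Y P ((A l).gen i)) ^ c l := by
    intro i T
    have h1 : (∏ l, h l ^ c l) * algebraMap Y P (A'.gen i) =
        ∏ l, (h l * algebraMap Y P ((A l).gen i)) ^ c l := by
      simp only [A']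
      rw [map_prod, ← Finset.prod_mul_distrib]
      refine Finset.prod_congr rfl fun l _ => ?_
      rw [map_zpow₀, mul_zpow]
    rw [h1, map_prod]
    refine Finset.prod_congr rfl fun l _ => ?_
    rw [map_zpow₀]
  refine ⟨∏ l, N l, A', ∏ l, h l ^ c l, Finset.one_le_prod' (fun l _ => hN l), ?_, ?_⟩
  · exact Finset.prod_ne_zero_iff.mpr fun l _ => zpow_ne_zero _ (hh l)
  · intro i T hT t ht
    refine ⟨fun l hl => ?_, fun hno => ?_⟩
    · rw [hval, Finset.prod_eq_single l]
      · rw [(hA l i T hT).1 hl t ht, ← zpow_natCast, ← zpow_mul, hcN]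
      · intro l' _ hl'
        have h2 : ¬ ∀ p, T p ≤ 1 ↔ Ts l' p ≤ 1 := by
          intro h3
          exact hne l l' (fun h4 => hl' h4.symm) (fun p => (hl p).symm.trans (h3 p))
        rw [(hA l' i T hT).2 h2, one_zpow]
      · intro h4
        exact absurd (Finset.mem_univ l) h4
    · rw [hval]
      refine Finset.prod_eq_one fun l _ => ?_
      rw [(hA l i T hT).2 (hno l), one_zpow]

end Pf72953.Pic
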