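import Mathlib
import Pool.Agent.Lib.Pf72953.Coord
import Pool.Agent.Lib.Pf72953c.RegJac
import Pool.Agent.Lib.Pf72953f.RelW
import Pool.Agent.Lib.Pf72953q.QDefs

/-!
MODULE Pf72953q.VolW: the form `dx_i ∧ ds` of `L/B` and its coefficient in the charts of `W`.

PROOF.  Let `ξ = (x_i, s)`, index `Fin (dimension k Y) ⊕ Fin r`, `η = W.x j`, index `Fin (dimension B L)`.
`vol_le`: `d a (ξ b) = ∑ c, d a (η c) * pd (W.tb j) c (ξ b)` (`der_eq_sum`, Pf72953/Coord.lean), so with the columns and rows reindexed by `ev` `vol i s d = det (d_(ev a) (η c)) * coefW` (`Matrix.det_mul`, `Matrix.det_submatrix_equiv_self`, `jac_eq_det`; or `det_der_algebraMap` as in `det_regDer_le`, Pf72953c/RegJac.lean); the first determinant has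
entries of value `≤ 1` (`hd`, `hwA`, `W.mem`).
`vol_attained`: `d a = pd (W.tb j) (ev.symm a)` preserves the valuation ring (`hv.reg.der`; `hv.reg.tb` and `W.tb j` are proofs of the same proposition) and `vol i s d = coefW` (the first determinant is one: `pd_self`).
`coef_indep`: by the chain rule `jac (W.tb j) ξ' = jac (W.tb j) ξ * jac (tbL ..) ξ'` up to the reindexing by `ev` (`jac_chain`, `jac_reindex`, Pf72953/DBasis.lean), `ξ' = (x_{i'}, s)`, and `jac (tbL (hx i) hs) ξ' = jac (hx i) (x_{i'})` in `Z` (`Fib.jac_rel`, Pf72953f/RelW.lean, `jac_self`, as in RegOf.lean).  `(x_i)` and `(x_{i'})` are regular bases for `T|Z`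
(`PrimeAt.regBasis`, Pf72953b/FinBad.lean), so both `jac (hx i) (x_{i'})` and `jac (hx i') (x_i)` have `T`-value `≤ 1` (`RegBasis.jac_le`) and their product is `1` (`jac_mul_jac`), so the value is `1`; `v` lies over `T`: `v z = 1 ↔ T z = 1`.
-/

set_option autoImplicit false
set_option linter.style.haveILetI false
set_option linter.unusedSectionVars false

open scoped WithZero
open Pf72953 Pf72953.Mov Pf72953.Up Pf72953.Br Pf72953.Can

namespace Pf72953.Pic

variable {k B Y Z P L : Type*} [Field k] [CharZero k] [Field B] [CharZero B] [Field Y] [Field Z]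
  [Field P] [Field L] [Algebra k B] [Algebra k Y] [Algebra k Z] [Algebra k P] [Algebra k L]
  [Algebra B Z] [Algebra B P] [Algebra B L] [Algebra Y Z] [Algebra Y P] [Algebra Y L]
  [Algebra Z P] [Algebra Z L] [Algebra P L]
  [IsScalarTower k B Z] [IsScalarTower k B P] [IsScalarTower k B L] [IsScalarTower k Y Z]
  [IsScalarTower k Y P] [IsScalarTower k Y L] [IsScalarTower k Z P] [IsScalarTower k Z L]
  [IsScalarTower k P L] [IsScalarTower B Z P] [IsScalarTower B Z L] [IsScalarTower B P L]
  [IsScalarTower Y Z P] [IsScalarTower Y Z L] [IsScalarTower Y P L] [IsScalarTower Z P L]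
  [Algebra.EssFiniteType k B] [Algebra.EssFiniteType k Y] [Algebra.EssFiniteType k Z]
  [Algebra.EssFiniteType k L] [FiniteDimensional Z P] {M : SmoothModel k Y} {W : SmoothModel B L}

namespace VolWAux

theorem det_le_one {K ι : Type*} [Field K] [Fintype ι] [DecidableEq ι]
    {w : Valuation K ℤᵐ⁰} (A : Matrix ι ι K) (h : ∀ i j, w (A i j) ≤ 1) : w A.det ≤ 1 := by
  rw [Matrix.det_apply]
  refine Valuation.map_sum_le _ fun σ _ => ?_
  rw [Units.smul_def, zsmul_eq_mul, map_mul]
  refine mul_le_one' ?_ ?_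
  · rcases Int.units_eq_one_or (Equiv.Perm.sign σ) with h | h <;> simp [h, Valuation.map_neg]
  rw [map_prod]
  exact Finset.prod_le_one' fun i _ => h _ _

theorem vol_eq {k B Y L : Type*} [Field k] [Field B] [CharZero B] [Field Y] [Field L]
    [Algebra k Y] [Algebra B L] [Algebra Y L] {M : SmoothModel k Y} {W : SmoothModel B L}
    {r : ℕ} (s : Fin r → L) (ev : Fin (dimension B L) ≃ Fin (dimension k Y) ⊕ Fin r)
    (i : M.I) (j : W.I) (d : Fin (dimension k Y) ⊕ Fin r → Derivation B L L) :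
    vol i s d = coefW W s ev i j *
      Matrix.det (Matrix.of fun a b => d (ev a) (W.x j b)) := by
  have h1 := det_der_algebraMap (k := B) (B := L) (E := L) (W.tb j) (fun a => d (ev a))
    (fun a => Sum.elim (fun c => algebraMap Y L (M.x i c)) s (ev a))
  simp only [Algebra.algebraMap_self_apply] at h1
  rw [vol, coefW, ← h1, ← Matrix.det_submatrix_equiv_self ev]
  rfl

theorem coefW_eq {k B Y Z L : Type*} [Field k] [Field B] [CharZero B] [Field Y] [Field Z]
    [Field L] [Algebra k Y] [Algebra B L] [Algebra Y Z] [Algebra Y L] [Algebra Z L]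
    [IsScalarTower Y Z L] {M : SmoothModel k Y} {W : SmoothModel B L} {r : ℕ} (s : Fin r → L)
    (ev : Fin (dimension B L) ≃ Fin (dimension k Y) ⊕ Fin r) (i : M.I) (j : W.I) :
    coefW W s ev i j = jac (W.tb j)
      (Sum.elim (fun c => algebraMap Z L (algebraMap Y Z (M.x i c))) s ∘ ev) := by
  rw [coefW]
  congr 1
  funext a
  rw [Function.comp_apply]
  rcases ev a with c | c
  · exact IsScalarTower.algebraMap_apply Y Z L _
  · rfl

theorem tbZ {k B Y Z L : Type*} [Field k] [Field B] [Field Y] [Field Z] [Field L] [Algebra k Y]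
    [Algebra B Z] [Algebra B L] [Algebra Y Z] [Algebra Z L] [IsScalarTower B Z L]
    {M : SmoothModel k Y} {i : M.I}
    (hx : IsTranscendenceBasis B (fun a => algebraMap Y Z (M.x i a))) {r : ℕ} {s : Fin r → L}
    (hs : IsTranscendenceBasis Z s) :
    IsTranscendenceBasis B
      (Sum.elim (fun c => algebraMap Z L (algebraMap Y Z (M.x i c))) s) := by
  have h2 := hx.sumElim_comp hs
  have h3 := (isTranscendenceBasis_equiv (Equiv.sumComm (Fin (dimension k Y)) (Fin r))).mpr h2
  convert h3 using 1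
  funext j
  rcases j with j | j
  · rfl
  · rfl

end VolWAux

open VolWAux

theorem vol_le {r : ℕ} (s : Fin r → L) (ev : Fin (dimension B L) ≃ Fin (dimension k Y) ⊕ Fin r)
    (i : M.I) {j : W.I} {w : Valuation L ℤᵐ⁰} (hwA : ∀ a ∈ W.A j, w a ≤ 1)
    (d : Fin (dimension k Y) ⊕ Fin r → Derivation B L L) (hd : ∀ a z, w z ≤ 1 → w (d a z) ≤ 1) :
    w (vol i s d) ≤ w (coefW W s ev i j) := by
  rw [vol_eq s ev i j d, map_mul]
  exact mul_le_of_le_one_right'
    (det_le_one _ fun a b => hd (ev a) _ (hwA _ (W.mem j b)))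

theorem vol_attained {r : ℕ} (s : Fin r → L)
    (ev : Fin (dimension B L) ≃ Fin (dimension k Y) ⊕ Fin r) (i : M.I) {j : W.I}
    {v : Valuation L ℤᵐ⁰} (hv : WPrime W j v) :
    ∃ d : Fin (dimension k Y) ⊕ Fin r → Derivation B L L,
      (∀ a z, v z ≤ 1 → v (d a z) ≤ 1) ∧ vol i s d = coefW W s ev i j := by
  refine ⟨fun a => pd (W.tb j) (ev.symm a), fun a z hz => hv.reg.der (ev.symm a) z hz, ?_⟩
  rw [vol_eq s ev i j]
  have h1 : (Matrix.of fun a b => pd (W.tb j) (ev.symm (ev a)) (W.x j b)) =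
      (Matrix.of fun a b => pd (W.tb j) a (W.x j b)) := by
    ext a b
    simp only [Matrix.of_apply, Equiv.symm_apply_apply]
  rw [h1, ← jac_eq_det, jac_self, mul_one]

theorem coef_ne_zero (hx : ∀ i, IsTranscendenceBasis B (fun a => algebraMap Y Z (M.x i a)))
    {r : ℕ} {s : Fin r → L} (hs : IsTranscendenceBasis Z s)
    (ev : Fin (dimension B L) ≃ Fin (dimension k Y) ⊕ Fin r) (i : M.I) (j : W.I) :
    coefW W s ev i j ≠ 0 := by
  have h1 := (isTranscendenceBasis_equiv ev).mpr (tbL (L := L) (hx i) hs)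
  exact jac_ne_zero h1 (W.tb j)

theorem coef_indep (hx : ∀ i, IsTranscendenceBasis B (fun a => algebraMap Y Z (M.x i a)))
    {r : ℕ} {s : Fin r → L} (hs : IsTranscendenceBasis Z s)
    (ev : Fin (dimension B L) ≃ Fin (dimension k Y) ⊕ Fin r) {i i' : M.I}
    {T : Valuation P ℤᵐ⁰} (hT : PrimeDiv k M B Z i T) (hT' : PrimeDiv k M B Z i' T)
    {v : Valuation L ℤᵐ⁰} (hv : Over T v) (j : W.I) :
    v (coefW W s ev i j) = v (coefW W s ev i' j) := by
  classical
  haveI : CharZero Z := charZero_of_injective_algebraMap (algebraMap k Z).injective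
  have hZ := tbZ (L := L) (hx i) hs
  have hZ' := tbZ (L := L) (hx i') hs
  have he := (isTranscendenceBasis_equiv ev).mpr hZ
  -- the jacobian in `Z`
  have hreg := hT.prime.regBasis (hx i)
  have hreg' := hT'.prime.regBasis (hx i')
  have hJ : T (algebraMap Z P (jac (hx i) (fun a => algebraMap Y Z (M.x i' a)))) ≤ 1 :=
    hreg.jac_le _ hreg'.le_one
  have hJ' : T (algebraMap Z P (jac (hx i') (fun a => algebraMap Y Z (M.x i a)))) ≤ 1 :=
    hreg'.jac_le _ hreg.le_one
  have hmul := jac_mul_jac (hx i') (hx i)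
  have hvJ : v (algebraMap Z L (jac (hx i) (fun a => algebraMap Y Z (M.x i' a)))) ≤ 1 := by
    rw [IsScalarTower.algebraMap_apply Z P L]
    exact (hv _).mpr hJ
  have hvJ' : v (algebraMap Z L (jac (hx i') (fun a => algebraMap Y Z (M.x i a)))) ≤ 1 := by
    rw [IsScalarTower.algebraMap_apply Z P L]
    exact (hv _).mpr hJ'
  have hvm : v (algebraMap Z L (jac (hx i) (fun a => algebraMap Y Z (M.x i' a)))) *
      v (algebraMap Z L (jac (hx i') (fun a => algebraMap Y Z (M.x i a)))) = 1 := by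
    rw [← map_mul, ← map_mul, hmul, map_one, map_one]
  have hv1 : v (algebraMap Z L (jac (hx i) (fun a => algebraMap Y Z (M.x i' a)))) = 1 := by
    refine le_antisymm hvJ ?_
    rw [← hvm]
    exact mul_le_of_le_one_right' hvJ'
  have h3 := Fib.jac_rel (hx i) hs hZ (fun j => algebraMap Y Z (M.x i' j)) s
  rw [jac_self, mul_one] at h3
  have h4 := jac_chain he (W.tb j)
    (Sum.elim (fun c => algebraMap Z L (algebraMap Y Z (M.x i' c))) s ∘ ev)
  rw [jac_reindex ev hZ he, h3] at h4
  rw [coefW_eq (Z := Z) s ev i' j, coefW_eq (Z := Z) s ev i j, h4, map_mul, hv1, mul_one]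

end Pf72953.Pic
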