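import Mathlib
import Pool.Agent.Lib.Pf72953q.KeyW
import Pool.Agent.Lib.Pf72953q.ExtW
import Pool.Agent.Lib.Pf72953q.VolW
import Pool.Agent.Lib.Pf72953q.RegX
import Pool.Agent.Lib.Pf72953q.OrdW
import Pool.Agent.Lib.Pf72953q.RigidSum

/-!
The canonical bundle formula over an isotrivial base with rigid Picard group: the direct image of the relative pluricanonical
forms is constant.
-/

set_option autoImplicit false
set_option linter.style.haveILetI false
set_option linter.unusedSectionVars false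

open scoped WithZero
open Pf72953 Pf72953.Mov Pf72953.Up Pf72953.Br Pf72953.Can

namespace Pf72953.Pic

section basic

variable {P L : Type*} [Field P] [Field L] [Algebra P L]

theorem Over.one_iff {T : Valuation P ℤᵐ⁰} {v : Valuation L ℤᵐ⁰} (h : Over T v) (p : P) :
    v (algebraMap P L p) = 1 ↔ T p = 1 := by
  have h1 : (v.comap (algebraMap P L)).IsEquiv T :=
    (Valuation.isEquiv_iff_val_le_one).mpr (fun {a} => h a)
  exact (Valuation.isEquiv_iff_val_eq_one.mp h1)

theorem Over.lt_one_iff {T : Valuation P ℤᵐ⁰} {v : Valuation L ℤᵐ⁰} (h : Over T v) (p : P) :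
    v (algebraMap P L p) < 1 ↔ T p < 1 := by
  rw [lt_iff_le_and_ne, lt_iff_le_and_ne, h p, Ne, Ne, h.one_iff p]

theorem isUnif_ne {T : Valuation P ℤᵐ⁰} {t : P} (ht : IsUnif T t) : T t ≠ 0 :=
  (Valuation.ne_zero_iff T).mpr ht.ne_zero

/-- the value at `v` of an element of `P` of order `n` at `T` -/
theorem Over.zpow {T : Valuation P ℤᵐ⁰} {v : Valuation L ℤᵐ⁰} (h : Over T v) {t : P}
    (ht : IsUnif T t) {p : P} {n : ℤ} (hp : T p = T t ^ n) :
    v (algebraMap P L p) = v (algebraMap P L t) ^ n := by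
  have h0 : T t ≠ 0 := isUnif_ne ht
  have h1 : T (p / t ^ n) = 1 := by
    rw [map_div₀, map_zpow₀, hp, div_self (zpow_ne_zero _ h0)]
  have h2 := (h.one_iff _).mpr h1
  have h3 : v (algebraMap P L t) ≠ 0 := by
    rw [Valuation.ne_zero_iff]
    simpa using ht.ne_zero
  rw [map_div₀, map_div₀, map_zpow₀, map_zpow₀, div_eq_one_iff_eq (zpow_ne_zero _ h3)] at h2
  exact h2

end basic

section congr

variable {k B Y Z P : Type*} [Field k] [Field B] [Field Y] [Field Z] [Field P] [Algebra k Y]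
  [Algebra k P] [Algebra B Z] [Algebra B P] [Algebra Y Z] [Algebra Y P] [Algebra Z P]
  {M : SmoothModel k Y}

theorem PrimeDiv.congr {i : M.I} {T T' : Valuation P ℤᵐ⁰} (h : ∀ p, T' p ≤ 1 ↔ T p ≤ 1)
    (hT : PrimeDiv k M B Z i T) : PrimeDiv k M B Z i T' := by
  have h1 : ∀ p, T' p = 1 ↔ T p = 1 :=
    fun p => Valuation.isEquiv_iff_val_eq_one.mp
      (Valuation.isEquiv_iff_val_le_one.mpr (fun {a} => h a))
  refine ⟨⟨fun c hc => (h1 _).mpr (hT.div.const c hc), ?_, ?_⟩, fun b hb => (h1 _).mpr (hT.triv b hb),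
    ⟨fun f hf => (h _).mpr (hT.prime.center f hf), fun d hd z hz => ?_⟩⟩
  · obtain ⟨a, ha0, ha⟩ := hT.div.nontrivial
    exact ⟨a, ha0, fun h2 => ha ((h1 a).mp h2)⟩
  · obtain ⟨ξ, hξ⟩ := hT.div.resid
    exact ⟨ξ, fun p hp => (h1 _).mpr (hξ p hp)⟩
  · exact (h _).mpr (hT.prime.der d (fun a => (h _).mp (hd a)) z ((h _).mp hz))

theorem primeAt_refines {K : Type*} [Field K] [Algebra Z K] [Algebra Y K] {M' : SmoothModel k Y}
    {i' : M'.I} {i : M.I} (hA : M.A i ≤ M'.A i') (hx : M'.x i' = M.x i) {w : Valuation K ℤᵐ⁰}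
    (h : PrimeAt M' B Z i' w) : PrimeAt M B Z i w :=
  ⟨fun f hf => h.center f (hA hf), fun d hd z hz => h.der d (by rw [hx]; exact hd) z hz⟩

theorem PrimeDiv.refines {M' : SmoothModel k Y} {i' : M'.I} {i : M.I} (hA : M.A i ≤ M'.A i')
    (hx : M'.x i' = M.x i) {T : Valuation P ℤᵐ⁰} (h : PrimeDiv k M' B Z i' T) :
    PrimeDiv k M B Z i T :=
  ⟨h.div, h.triv, primeAt_refines hA hx h.prime⟩

end congr

theorem vol_refines {k B Y L : Type*} [Field k] [Field B] [Field Y] [Field L] [Algebra k Y]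
    [Algebra B L] [Algebra Y L] {M M' : SmoothModel k Y} {i' : M'.I} {i : M.I}
    (hx : M'.x i' = M.x i) {r : ℕ} (s : Fin r → L)
    (d : Fin (dimension k Y) ⊕ Fin r → Derivation B L L) : vol i' s d = vol i s d := by
  rw [vol, vol, hx]

variable {k B Y Z P L : Type*} [Field k] [CharZero k] [Field B] [CharZero B] [Field Y] [Field Z]
  [Field P] [Field L] [Algebra k B] [Algebra k Y] [Algebra k Z] [Algebra k P] [Algebra k L]
  [Algebra B Z] [Algebra B P] [Algebra B L] [Algebra Y Z] [Algebra Y P] [Algebra Y L]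
  [Algebra Z P] [Algebra Z L] [Algebra P L]
  [IsScalarTower k B Z] [IsScalarTower k B P] [IsScalarTower k B L] [IsScalarTower k Y Z]
  [IsScalarTower k Y P] [IsScalarTower k Y L] [IsScalarTower k Z P] [IsScalarTower k Z L]
  [IsScalarTower k P L] [IsScalarTower B Z P] [IsScalarTower B Z L] [IsScalarTower B P L]
  [IsScalarTower Y Z P] [IsScalarTower Y Z L] [IsScalarTower Y P L] [IsScalarTower Z P L]
  [Algebra.EssFiniteType k B] [Algebra.EssFiniteType k Y] [Algebra.EssFiniteType k Z]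
  [Algebra.EssFiniteType k L] [FiniteDimensional Z P] {M : SmoothModel k Y} {W : SmoothModel B L}

theorem mainF (hx : ∀ i, IsTranscendenceBasis B (fun a => algebraMap Y Z (M.x i a)))
    (hgenZ : ∀ z : Z, z ∈ IntermediateField.adjoin B (Set.range (algebraMap Y Z)))
    (hdom : Dominates W M) (hR : RigidPic k M B Z P) {r : ℕ} {s : Fin r → L}
    (hs : IsTranscendenceBasis Z s) {e : ℕ} {G : L} (hG : G ≠ 0) (hX : RegOn k Z s e G) :
    ∃ M' : SmoothModel k Y, Refines M' M ∧ ∃ (N : ℕ) (A : LineBundle M') (h : P), 1 ≤ N ∧ h ≠ 0 ∧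
      RegularOver k B Z A s (e * N) (algebraMap P L h * G ^ N) ∧
      GeneratedOver k B Z P A s (e * N) (algebraMap P L h * G ^ N) := by
  classical
  haveI := M.finite
  haveI := W.finite
  haveI := Fintype.ofFinite M.I
  haveI : Algebra.EssFiniteType B L := Algebra.EssFiniteType.of_comp k B L
  haveI : CharZero P := charZero_of_injective_algebraMap (algebraMap k P).injective
  -- the charts are not empty
  obtain ⟨i₁, -⟩ := M.cover (1 : Valuation Y ℤᵐ⁰) (fun c hc => by
    rw [Valuation.one_apply_of_ne_zero]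
    simpa using hc)
  have htb := tbL (hx i₁) hs
  have hcard := card_eq_of_isTranscendenceBasis htb
  let ev : Fin (dimension B L) ≃ Fin (dimension k Y) ⊕ Fin r :=
    Fintype.equivOfCardEq (by rw [hcard, Fintype.card_fin])
  let φ : M.I → W.I → L := fun i j => G * coefW W s ev i j ^ e
  have hφ : ∀ i j, φ i j ≠ 0 := fun i j =>
    mul_ne_zero hG (pow_ne_zero _ (coef_ne_zero hx hs ev i j))
  have hne : ∀ i (T : Valuation P ℤᵐ⁰), PrimeDiv k M B Z i T →
      ∃ (j : W.I) (v : Valuation L ℤᵐ⁰), WPrime W j v ∧ Over T v :=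
    fun i T hT => exists_wprime_over hx hgenZ hdom hT
  have hindep : ∀ i i' (T : Valuation P ℤᵐ⁰), PrimeDiv k M B Z i T → PrimeDiv k M B Z i' T →
      ∀ (N : ℕ) (a : ℤ), OrdAt W (φ i) T N a → OrdAt W (φ i') T N a := by
    intro i i' T hT hT' N a h
    refine h.congr_fun fun j v hv => ?_
    simp only [φ, map_mul, map_pow]
    rw [coef_indep hx hs ev hT hT' hv j]
  -- finite support
  choose m Ts hTs using fun i => finite_supp (W := W) (P := P) (hφ i)
  let e' := Fintype.equivFin (Σ i, Fin (m i))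
  obtain ⟨m', Ts', hQ, hpair, hrep⟩ := exists_reps (fun T : Valuation P ℤᵐ⁰ =>
    ∃ i, PrimeDiv k M B Z i T) (fun l => Ts (e'.symm l).1 (e'.symm l).2)
  -- the orders at the representatives
  have hord0 : ∀ l, ∃ (N : ℕ) (a : ℤ), 1 ≤ N ∧
      ∀ i, PrimeDiv k M B Z i (Ts' l) → OrdAt W (φ i) (Ts' l) N a := by
    intro l
    obtain ⟨i, hi⟩ := hQ l
    obtain ⟨N, a, hN, ha⟩ := exists_ord (W := W) (hφ i) hi.div.nontrivial (hne i _ hi)
    exact ⟨N, a, hN, fun i' hi' => hindep i i' _ hi hi' N a ha⟩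
  choose N a hN hord using hord0
  set N₁ := ∏ l, N l with hN₁
  let a' : Fin m' → ℤ := fun l => a l * ((∏ l' ∈ Finset.univ.erase l, N l' : ℕ) : ℤ)
  have hord' : ∀ l i, PrimeDiv k M B Z i (Ts' l) → OrdAt W (φ i) (Ts' l) N₁ (a' l) := by
    intro l i hi
    have h1 := (hord l i hi).mul (∏ l' ∈ Finset.univ.erase l, N l')
    rw [Finset.mul_prod_erase Finset.univ N (Finset.mem_univ l)] at h1
    exact h1
  obtain ⟨M', hM', N₂, A, h, hN₂, hh, hA⟩ := rigid_sum hR Ts' hQ hpair (fun l => - a' l)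
  choose ρ g hg0 hgM hgM' hρA hρg hρx using hM'
  have hρ : ∀ (i : M'.I) (T : Valuation P ℤᵐ⁰), PrimeDiv k M' B Z i T →
      PrimeDiv k M B Z (ρ i) T := fun i T hT => hT.refines (hρA i) (hρx i)
  have hkey : ∀ (i : M'.I) (T : Valuation P ℤᵐ⁰), PrimeDiv k M' B Z i T →
      ∃ b : ℤ, OrdAt W (φ (ρ i)) T N₁ b ∧
        ∀ t, IsUnif T t → T (h * algebraMap Y P (A.gen i)) = T t ^ ((N₂ : ℤ) * (-b)) := by
    intro i T hT
    by_cases hl : ∃ l, ∀ p, T p ≤ 1 ↔ Ts' l p ≤ 1
    · obtain ⟨l, hl⟩ := hl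
      refine ⟨a' l, ?_, fun t ht => (hA i T hT t ht).1 l hl⟩
      exact (hord' l (ρ i) ((hρ i T hT).congr fun p => (hl p).symm)).congr hl
    · refine ⟨0, ?_, fun t ht => ?_⟩
      · have h1 : OrdAt W (φ (ρ i)) T 1 0 := by
          refine hTs (ρ i) T (hne (ρ i) T (hρ i T hT)) fun l hl' => hl ?_
          refine hrep T ⟨ρ i, hρ i T hT⟩ ⟨e' ⟨ρ i, l⟩, ?_⟩
          change ∀ p, T p ≤ 1 ↔
            (fun x : Σ i, Fin (m i) => Ts x.1 x.2) (e'.symm (e' ⟨ρ i, l⟩)) p ≤ 1
          rw [Equiv.symm_apply_apply]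
          exact hl'
        simpa using h1.mul N₁
      · rw [(hA i T hT t ht).2 (fun l hl' => hl ⟨l, hl'⟩)]
        simp
  have hN₁1 : 1 ≤ N₁ := Nat.one_le_iff_ne_zero.mpr
    (Finset.prod_ne_zero_iff.mpr fun l _ => Nat.one_le_iff_ne_zero.mp (hN l))
  -- the local generators
  set f : M'.I → W.I → L := fun i j => algebraMap Y L (A.gen i) *
    (algebraMap P L h * G ^ (N₁ * N₂)) * coefW W s ev (ρ i) j ^ (e * (N₁ * N₂)) with hf
  have hfφ : ∀ i j (v : Valuation L ℤᵐ⁰), v (f i j) =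
      v (algebraMap P L (h * algebraMap Y P (A.gen i))) * (v (φ (ρ i) j) ^ N₁) ^ N₂ := by
    intro i j v
    have h1 : f i j = algebraMap P L (h * algebraMap Y P (A.gen i)) * (φ (ρ i) j ^ N₁) ^ N₂ := by
      simp only [hf, φ, map_mul, ← IsScalarTower.algebraMap_apply Y P L]
      ring
    rw [h1, map_mul, map_pow, map_pow]
  have hval : ∀ (i : M'.I) (T : Valuation P ℤᵐ⁰), PrimeDiv k M' B Z i T →
      (∀ (j : W.I) (v : Valuation L ℤᵐ⁰), WPrime W j v → Over T v → v (f i j) ≤ 1) ∧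
      ∃ (j : W.I) (v : Valuation L ℤᵐ⁰), WPrime W j v ∧ Over T v ∧ v (f i j) = 1 := by
    intro i T hT
    obtain ⟨b, hb, hb'⟩ := hkey i T hT
    obtain ⟨t, ht⟩ := exists_unif T hT.div.nontrivial
    have h1 : ∀ v : Valuation L ℤᵐ⁰, Over T v →
        v (algebraMap P L (h * algebraMap Y P (A.gen i))) * (v (algebraMap P L t) ^ b) ^ N₂ = 1 := by
      intro v hv
      have h3 : v (algebraMap P L t) ≠ 0 := by
        rw [Valuation.ne_zero_iff]
        simpa using ht.ne_zero
      rw [hv.zpow ht (hb' t ht), ← zpow_natCast, ← zpow_mul, ← zpow_add₀ h3]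
      have h4 : (N₂ : ℤ) * -b + b * (N₂ : ℤ) = 0 := by ring
      rw [h4, zpow_zero]
    constructor
    · intro j v hjv hv
      rw [hfφ, ← h1 v hv]
      exact mul_le_mul' le_rfl (pow_le_pow_left' (hb.le j v hjv hv t ht) _)
    · obtain ⟨j, v, hjv, hv, heq⟩ := hb.eq
      refine ⟨j, v, hjv, hv, ?_⟩
      rw [hfφ, heq t ht, h1 v hv]
  have hgenne : ∀ i, algebraMap Y L (A.gen i) ≠ 0 := fun i => by simpa using A.ne i
  -- valuations trivial on `P`
  have htriv : ∀ (i : M'.I) (w : Valuation L ℤᵐ⁰), IsDivisorial k L w →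
      (∀ p : P, p ≠ 0 → w (algebraMap P L p) = 1) →
      ∀ d : Fin (dimension k Y) ⊕ Fin r → Derivation B L L, (∀ a z, w z ≤ 1 → w (d a z) ≤ 1) →
      w (algebraMap Y L (A.gen i) * (algebraMap P L h * G ^ (N₁ * N₂)) *
        vol (ρ i) s d ^ (e * (N₁ * N₂))) ≤ 1 := by
    intro i w hw htw d hd
    have h1 := vol_of_regOn hx hs hX (ρ i) hw (fun z hz => by
      rw [IsScalarTower.algebraMap_apply Z P L]
      exact htw _ (by simpa using hz)) d hd
    have h2 : w (algebraMap Y L (A.gen i)) = 1 := by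
      rw [IsScalarTower.algebraMap_apply Y P L]
      exact htw _ (by simpa using A.ne i)
    have h3 : algebraMap Y L (A.gen i) * (algebraMap P L h * G ^ (N₁ * N₂)) *
        vol (ρ i) s d ^ (e * (N₁ * N₂)) = algebraMap Y L (A.gen i) * algebraMap P L h *
          (G * vol (ρ i) s d ^ e) ^ (N₁ * N₂) := by ring
    rw [h3, map_mul, map_mul, h2, htw h hh, one_mul, one_mul, map_pow]
    exact pow_le_one' h1 _
  refine ⟨M', fun i => ⟨ρ i, g i, hg0 i, hgM i, hgM' i, hρA i, hρg i, hρx i⟩, N₁ * N₂, A, h,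
    Nat.one_le_iff_ne_zero.mpr (Nat.mul_ne_zero (by omega) (by omega)), hh, ?_, ?_⟩
  · -- regularity
    intro i w hw htB hprime d hd
    rw [vol_refines (hρx i)]
    by_cases hnt : ∀ p : P, p ≠ 0 → w (algebraMap P L p) = 1
    · exact htriv i w hw hnt d hd
    · push Not at hnt
      have hT : PrimeDiv k M' B Z i (w.comap (algebraMap P L)) := by
        refine ⟨hw.restrict hnt, fun b hb => ?_, ⟨fun f hf => ?_, fun d' hd' z hz => ?_⟩⟩
        · rw [Valuation.comap_apply, ← IsScalarTower.algebraMap_apply B P L]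
          exact htB b hb
        · rw [Valuation.comap_apply, ← IsScalarTower.algebraMap_apply Y P L]
          exact hprime.center f hf
        · simp only [Valuation.comap_apply, ← IsScalarTower.algebraMap_apply Z P L] at hd' hz ⊢
          exact hprime.der d' hd' z hz
      have hover : Over (w.comap (algebraMap P L)) w := fun p => Iff.rfl
      obtain ⟨j, hj⟩ := W.cover w htB
      by_contra hcon
      rw [not_le] at hcon
      have h1 : 1 < w (f i j) := by
        refine hcon.trans_le ?_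
        simp only [hf, map_mul, map_pow]
        exact mul_le_mul' le_rfl (pow_le_pow_left' (vol_le (k := k) s ev (ρ i) hj d hd) _)
      obtain ⟨v, hv, hv1, hv2⟩ := exists_wprime hx hgenZ hdom (hρ i _ hT) hover hj h1
      rcases hv2 with hv2 | hv2
      · obtain ⟨d', hd', hvol⟩ := vol_attained (k := k) s ev (ρ i) hv
        have h2 := htriv i v (Up.IsDivisorial.under hv.div) hv2 d' hd'
        rw [hvol] at h2
        exact absurd h2 (not_le.mpr hv1)
      · exact absurd ((hval i _ hT).1 j v hv hv2) (not_le.mpr hv1)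
  · -- generation
    intro i T hdiv htB hprime
    obtain ⟨j, v, hjv, hv, heq⟩ := (hval i T ⟨hdiv, htB, hprime⟩).2
    obtain ⟨d', hd', hvol⟩ := vol_attained (k := k) s ev (ρ i) hjv
    refine ⟨v, Up.IsDivisorial.under hjv.div, hv, d', hd', ?_⟩
    rw [vol_refines (hρx i), hvol]
    exact heq.ge

end Pf72953.Pic
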