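import Mathlib
import Pool.Agent.Lib.Pf72953p.MainL
import Pool.Agent.Lib.Pf72953q.FormG
import Pool.Agent.Lib.Pf72953q.MainF

/-!
Iitaka's inequality for fibre spaces over an isotrivial base with rigid Picard group.
-/

set_option autoImplicit false
set_option linter.style.haveILetI false
set_option linter.unusedSectionVars false

open scoped WithZero
open Pf72953 Pf72953.Var Pf72953.Mov Pf72953.Ell Pf72953.Can Pf72953.Fib Pf72953.Red Pf72953.Up
open Pf72953.Pow

namespace Pf72953.Pic

/-- the condition on logarithmic poles for a multiple of the form -/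
theorem logForm_mul {k Z P L : Type*} [Field k] [Field Z] [Field P] [Field L] [Algebra k L]
    [Algebra Z L] [Algebra P L] {r : ℕ} {s : Fin r → L} {e : ℕ} {G : L} {N : ℕ} {h : P}
    (hh : h ≠ 0) (hlog : LogForm k Z P s e G) :
    LogForm k Z P s (e * N) (algebraMap P L h * G ^ N) := by
  obtain ⟨n, T, hn, hT, hl⟩ := hlog
  have hhL : algebraMap P L h ≠ 0 := by simpa using hh
  refine ⟨n, T ^ N / h ^ n, hn, div_ne_zero (pow_ne_zero _ hT) (pow_ne_zero _ hh),
    fun w hw d hd => ?_⟩
  have h1 := hl w hw d hd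
  have h2 : algebraMap P L (T ^ N / h ^ n) * (algebraMap P L h * G ^ N) ^ n *
      Matrix.det (Matrix.of fun a b => d a (s b)) ^ (e * N * n) =
      (algebraMap P L T * G ^ n * Matrix.det (Matrix.of fun a b => d a (s b)) ^ (e * n)) ^ N := by
    rw [map_div₀, map_pow, map_pow]
    field_simp
    ring
  rw [h2, map_pow]
  exact pow_le_one' h1 N

universe u

variable {k B V E Y Z P L : Type u} [Field k] [CharZero k] [IsAlgClosed k] [Field B] [Field V]
  [Field E] [Field Y] [Field Z] [Field P] [Field L]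
  [Algebra k B] [Algebra k V] [Algebra k E] [Algebra k Y] [Algebra k Z] [Algebra k P] [Algebra k L]
  [Algebra V E] [Algebra V P] [Algebra V L]
  [Algebra B E] [Algebra B Z] [Algebra B P] [Algebra B L] [Algebra E L] [Algebra Y Z]
  [Algebra Y P] [Algebra Y L] [Algebra Z P] [Algebra Z L] [Algebra P L]
  [IsScalarTower k V E] [IsScalarTower k V P] [IsScalarTower k V L] [IsScalarTower V E L]
  [IsScalarTower V P L]
  [IsScalarTower k B E] [IsScalarTower k B Z] [IsScalarTower k B P] [IsScalarTower k B L]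
  [IsScalarTower k E L] [IsScalarTower k Y Z] [IsScalarTower k Y P] [IsScalarTower k Y L]
  [IsScalarTower k Z P] [IsScalarTower k Z L] [IsScalarTower k P L] [IsScalarTower B E L]
  [IsScalarTower B Z P] [IsScalarTower B Z L] [IsScalarTower B P L] [IsScalarTower Y Z P]
  [IsScalarTower Y Z L] [IsScalarTower Y P L] [IsScalarTower Z P L]
  [Algebra.EssFiniteType k B] [Algebra.EssFiniteType k Y] [Algebra.EssFiniteType k E]
  [FiniteDimensional E L] [FiniteDimensional Z P] [Algebra.IsAlgebraic V P]
  {M : SmoothModel k Y} {W : SmoothModel B L}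

theorem mainA {r : ℕ} (hcomp : Twr.IsCompositum k B Y Z)
    (hdim : dimension k B + dimension k Y + r = dimension k E) {s : Fin r → E}
    (hs : IsTranscendenceBasis V s) (hdom : Dominates W M) (hR : RigidPic k M B Z P) {e : ℕ}
    {G : L} (hG : G ≠ 0) (hX : RegOn k Z (fun j => algebraMap E L (s j)) e G) :
    ∃ M' : SmoothModel k Y, Refines M' M ∧ ∃ (N : ℕ) (A : LineBundle M') (h : P), 1 ≤ N ∧ h ≠ 0 ∧
      RegularOver k B Z A (fun j => algebraMap E L (s j)) (e * N) (algebraMap P L h * G ^ N) ∧
      GeneratedOver k B Z P A (fun j => algebraMap E L (s j)) (e * N)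
        (algebraMap P L h * G ^ N) := by
  classical
  haveI : CharZero B := charZero_of_injective_algebraMap (algebraMap k B).injective
  haveI : Algebra.EssFiniteType k Z := essFinite_Z hcomp
  haveI : Algebra.EssFiniteType k L := Algebra.EssFiniteType.comp k E L
  haveI : Algebra.EssFiniteType k V := Red.essFiniteType_sub k V E
  obtain ⟨-, hsZ⟩ := tb_alg (k := k) (Z := Z) (P := P) (L := L) hs
  have hx : ∀ i, IsTranscendenceBasis B (fun a => algebraMap Y Z (M.x i a)) := fun i =>
    (basesB hcomp hdim hsZ (M.tb i)).1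
  have hgenZ : ∀ z : Z, z ∈ IntermediateField.adjoin B (Set.range (algebraMap Y Z)) := by
    intro z
    have h1 := hcomp z
    induction h1 using IntermediateField.adjoin_induction with
    | mem x hx =>
      rcases hx with ⟨b, rfl⟩ | ⟨y, rfl⟩
      · exact IntermediateField.algebraMap_mem _ b
      · exact IntermediateField.subset_adjoin _ _ ⟨y, rfl⟩
    | algebraMap c =>
      rw [IsScalarTower.algebraMap_apply k B Z]
      exact IntermediateField.algebraMap_mem _ _
    | add x y _ _ hx hy => exact add_mem hx hy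
    | inv x _ hx => exact inv_mem hx
    | mul x y _ _ hx hy => exact mul_mem hx hy
  exact mainF hx hgenZ hdom hR hsZ hG hX

theorem mainQ {r : ℕ} (hcomp : Twr.IsCompositum k B Y Z)
    (hdim : dimension k B + dimension k Y + r = dimension k E) (hunr : Unramified k B E L)
    (hM : kodairaDim k Y ≠ ⊥) (hconn : Connected k B Y Z P L) (hV : ClosedIn V E)
    (hκ : kodairaDim P L ≤ 0) {s : Fin r → E} (hs : IsTranscendenceBasis V s)
    (hdom : Dominates W M) (hR : RigidPic k M B Z P)
    (hnv : FibrePowerForm k V E ∨ ∃ (e : ℕ) (G : L), 1 ≤ e ∧ G ≠ 0 ∧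
      RegOn k Z (fun j => algebraMap E L (s j)) e G ∧
      LogForm k Z P (fun j => algebraMap E L (s j)) e G) :
    kodairaDim k B + kodairaDim B E ≤ kodairaDim k E ∧
    (orbKodairaDim k B E ≠ ⊥ → orbKodairaDim k B E + kodairaDim B E ≤ kodairaDim k E) := by
  classical
  haveI : CharZero B := charZero_of_injective_algebraMap (algebraMap k B).injective
  haveI : CharZero Z := charZero_of_injective_algebraMap (algebraMap k Z).injective
  haveI : CharZero P := charZero_of_injective_algebraMap (algebraMap k P).injective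
  haveI : Algebra.EssFiniteType k Z := essFinite_Z hcomp
  haveI : Algebra.EssFiniteType k P := Algebra.EssFiniteType.comp k Z P
  haveI : Algebra.EssFiniteType k L := Algebra.EssFiniteType.comp k E L
  haveI : Algebra.EssFiniteType k V := Red.essFiniteType_sub k V E
  obtain ⟨hsP, hsZ⟩ := tb_alg (k := k) (Z := Z) (P := P) (L := L) hs
  by_cases hbot : kodairaDim P L = ⊥
  · have h1 : kodairaDim B E = ⊥ := kod_bot (k := k) (P := P) (L := L) hbot
    rw [h1, WithBot.add_bot, WithBot.add_bot]
    exact ⟨bot_le, fun _ => bot_le⟩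
  -- the form
  obtain ⟨e, G, he, hG, hX, hnv'⟩ : ∃ (e : ℕ) (G : L), 1 ≤ e ∧ G ≠ 0 ∧
      RegOn k Z (fun j => algebraMap E L (s j)) e G ∧
      (FibrePowerForm k V E ∨ LogForm k Z P (fun j => algebraMap E L (s j)) e G) := by
    rcases hnv with h | ⟨e, G, he, hG, hX, h⟩
    · obtain ⟨e, G, he, hG, hX⟩ := exists_regOn (k := k) (Z := Z) hsP hbot
      exact ⟨e, G, he, hG, hX, Or.inl h⟩
    · exact ⟨e, G, he, hG, hX, Or.inr h⟩
  obtain ⟨M', -, N, A, h, hN, hh, hreg, hgen⟩ := mainA hcomp hdim hs hdom hR hG hX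
  have hhL : algebraMap P L h ≠ 0 := by simpa using hh
  obtain ⟨h1, h2⟩ := mainL (A := A) hcomp hdim hunr hM hconn hV hκ hs
    (Nat.one_le_iff_ne_zero.mpr (Nat.mul_ne_zero (by omega) (by omega)) : 1 ≤ e * N)
    (mul_ne_zero hhL (pow_ne_zero _ hG)) hreg hgen
  obtain ⟨h4, h5⟩ := h2 (hnv'.imp id (logForm_mul hh))
  exact ⟨le_trans (by gcongr) h4, fun hne => le_trans (by gcongr) (h5 hne)⟩

end Pf72953.Pic
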